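import Pool.Agent.N1.F1
import Pool.Agent.N1.W5
import Pool.Agent.MST.LP

/-!
FN, soft part: one-dimensional `L⁴` estimates.
-/

namespace Pool.Agent.FN

open MeasureTheory Set Metric Pool.Agent.MP_6cbfb8_an Pool.Agent.MST Pool.Agent.N1
open scoped ENNReal Real

/-- The coordinate of the line. -/
noncomputable def e1 : E 1 ≃ᵐ ℝ :=
  (MeasurableEquiv.toLp 2 (Fin 1 → ℝ)).symm.trans (MeasurableEquiv.funUnique (Fin 1) ℝ)

theorem e1_apply (w : E 1) : e1 w = w 0 := rfl

theorem e1_mp : MeasurePreserving e1 (volume : Measure (E 1)) (volume : Measure ℝ) :=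
  (volume_preserving_funUnique (Fin 1) ℝ).comp
    (EuclideanSpace.volume_preserving_symm_measurableEquiv_toLp (Fin 1))

/-- Three coordinates. -/
noncomputable def e3 : E 1 × E 1 × E 1 ≃ᵐ ℝ × ℝ × ℝ := e1.prodCongr (e1.prodCongr e1)

theorem e3_mp : MeasurePreserving e3 (volume : Measure (E 1 × E 1 × E 1))
    (volume : Measure (ℝ × ℝ × ℝ)) := e1_mp.prod (e1_mp.prod e1_mp)

theorem four1 {Λ : Type*} [MeasurableSpace Λ] (μ : Measure Λ) [IsFiniteMeasure μ]
    (A : Λ → ℝ → ℂ) (hA : Measurable (Function.uncurry A)) (B R : ℝ)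
    (hB : ∀ l w, ‖A l w‖ ≤ B) (hR : ∀ l w, R < |w| → A l w = 0)
    (G : ℝ → ℂ) (hG : Measurable G) (hb : ∀ w, ‖G w‖ ≤ 1) :
    ∫⁻ l, (∫⁻ x : ℝ, ‖∫ w : ℝ, G w * A l w * ex (w * x)‖ₑ ^ (4:ℝ)) ∂μ ≤
      ∫⁻ q : ℝ × ℝ × ℝ, ‖∫ l, A l q.1 * A l (q.1 - q.2.1 - q.2.2) *
        (starRingEnd ℂ) (A l (q.1 - q.2.1)) * (starRingEnd ℂ) (A l (q.1 - q.2.2)) ∂μ‖ₑ := by
  have h0 : Measurable fun w : E 1 => w 0 := by fun_prop
  have hn : ∀ w : E 1, ‖w‖ = |w 0| := by
    intro w
    rw [EuclideanSpace.norm_eq]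
    simp [Real.sqrt_sq_eq_abs]
  have key := four_linear_param (m := 1) μ (fun l w => A l (w 0))
    (hA.comp (measurable_fst.prodMk (h0.comp measurable_snd))) B R (fun l w => hB l _)
    (fun l w hw => hR l _ (by rw [← hn]; exact hw)) (fun w => G (w 0)) (hG.comp h0)
    (fun w => hb _)
  refine le_trans (le_of_eq ?_) (key.trans (le_of_eq ?_))
  · refine lintegral_congr fun l => ?_
    rw [← e1_mp.lintegral_comp_emb e1.measurableEmbedding
      (fun x : ℝ => ‖∫ w : ℝ, G w * A l w * ex (w * x)‖ₑ ^ (4:ℝ))]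
    refine lintegral_congr fun x => ?_
    rw [← e1_mp.integral_comp e1.measurableEmbedding]
    congr 2
    refine integral_congr_ae (Filter.Eventually.of_forall fun w => ?_)
    simp only [e1_apply]
    congr 2
    simp [PiLp.inner_apply]
    ring
  · rw [← e3_mp.lintegral_comp_emb e3.measurableEmbedding]
    refine lintegral_congr fun q => ?_
    rfl

theorem enorm4_le (a b c d : ℝ≥0∞) :
    a * b * c * d ≤ a ^ (4:ℝ) + b ^ (4:ℝ) + c ^ (4:ℝ) + d ^ (4:ℝ) := by
  have h4 : ∀ x : ℝ≥0∞, x ^ (4:ℝ) = x * x * x * x := by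
    intro x
    have : (4:ℝ) = ((4:ℕ):ℝ) := by norm_num
    rw [this, ENNReal.rpow_natCast]
    ring
  have hm : ∀ m : ℝ≥0∞, a ≤ m → b ≤ m → c ≤ m → d ≤ m → a * b * c * d ≤ m ^ (4:ℝ) := by
    intro m h1 h2 h3 h5
    rw [h4]
    gcongr
  rcases le_total a b with h1 | h1
  · rcases le_total c d with h2 | h2
    · rcases le_total b d with h3 | h3
      · refine (hm d (h1.trans h3) h3 h2 le_rfl).trans ?_
        exact le_add_self
      · refine (hm b h1 le_rfl (h2.trans h3) h3).trans ?_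
        refine le_trans ?_ le_self_add
        refine le_trans ?_ le_self_add
        exact le_add_self
    · rcases le_total b c with h3 | h3
      · refine (hm c (h1.trans h3) h3 le_rfl h2).trans ?_
        refine le_trans ?_ le_self_add
        exact le_add_self
      · refine (hm b h1 le_rfl h3 (h2.trans h3)).trans ?_
        refine le_trans ?_ le_self_add
        refine le_trans ?_ le_self_add
        exact le_add_self
  · rcases le_total c d with h2 | h2
    · rcases le_total a d with h3 | h3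
      · refine (hm d h3 (h1.trans h3) h2 le_rfl).trans ?_
        exact le_add_self
      · refine (hm a le_rfl h1 (h2.trans h3) h3).trans ?_
        refine le_trans ?_ le_self_add
        refine le_trans ?_ le_self_add
        exact le_self_add
    · rcases le_total a c with h3 | h3
      · refine (hm c h3 (h1.trans h3) le_rfl h2).trans ?_
        refine le_trans ?_ le_self_add
        exact le_add_self
      · refine (hm a le_rfl h1 h3 (h2.trans h3)).trans ?_
        refine le_trans ?_ le_self_add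
        refine le_trans ?_ le_self_add
        exact le_self_add

/-- The one-dimensional `L⁴` estimate for functions with small support. -/
theorem l4a (f : ℝ → ℂ) (hf : Measurable f) (B : ℝ) (hB : ∀ w, ‖f w‖ ≤ B) (δ : ℝ) (hδ : 0 < δ)
    (hs : ∀ w, δ < |w| → f w = 0) :
    ∫⁻ x : ℝ, ‖∫ w : ℝ, f w * ex (w * x)‖ₑ ^ (4:ℝ) ≤
      ENNReal.ofReal (64 * δ ^ 2) * ∫⁻ w : ℝ, ‖f w‖ₑ ^ (4:ℝ) := by
  have key := four1 (Measure.dirac ()) (fun _ w => f w) (hf.comp measurable_snd) B δ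
    (fun _ w => hB w) (fun _ w hw => hs w hw) (fun _ => 1) measurable_const (fun _ => by simp)
  rw [lintegral_dirac] at key
  simp only [one_mul, integral_dirac] at key
  refine key.trans ?_
  set φ : ℝ → ℝ≥0∞ := fun w => ‖f w‖ₑ ^ (4:ℝ) with hφ
  have hφm : Measurable φ := hf.enorm.pow_const _
  set I : ℝ → ℝ≥0∞ := (Icc (-(2 * δ)) (2 * δ)).indicator 1 with hI
  have hIm : Measurable I := measurable_one.indicator measurableSet_Icc
  have hI1 : ∀ y, |y| ≤ 2 * δ → I y = 1 := by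
    intro y hy
    have hmem : y ∈ Icc (-(2 * δ)) (2 * δ) := abs_le.1 hy
    rw [hI, indicator_of_mem hmem, Pi.one_apply]
  have hle : ∀ w, f w ≠ 0 → |w| ≤ δ := by
    intro w hw
    by_contra h
    exact hw (hs w (not_le.1 h))
  have hpt : ∀ q : ℝ × ℝ × ℝ, ‖f q.1 * f (q.1 - q.2.1 - q.2.2) *
        (starRingEnd ℂ) (f (q.1 - q.2.1)) * (starRingEnd ℂ) (f (q.1 - q.2.2))‖ₑ ≤
      I q.2.1 * I q.2.2 * (φ q.1 + φ (q.1 - q.2.1 - q.2.2) + φ (q.1 - q.2.1) +
        φ (q.1 - q.2.2)) := by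
    intro q
    by_cases h : f q.1 = 0 ∨ f (q.1 - q.2.1) = 0 ∨ f (q.1 - q.2.2) = 0
    · have h0 : f q.1 * f (q.1 - q.2.1 - q.2.2) *
          (starRingEnd ℂ) (f (q.1 - q.2.1)) * (starRingEnd ℂ) (f (q.1 - q.2.2)) = 0 := by
        rcases h with h | h | h <;> rw [h] <;> simp
      rw [h0, enorm_zero]
      exact zero_le
    · push Not at h
      obtain ⟨h1, h2, h3⟩ := h
      have a1 := abs_le.1 (hle _ h1)
      have a2 := abs_le.1 (hle _ h2)
      have a3 := abs_le.1 (hle _ h3)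
      rw [hI1 q.2.1 (abs_le.2 ⟨by linarith, by linarith⟩),
        hI1 q.2.2 (abs_le.2 ⟨by linarith, by linarith⟩), one_mul, one_mul,
        enorm_mul, enorm_mul, enorm_mul]
      have e1 : ∀ z : ℂ, ‖(starRingEnd ℂ) z‖ₑ = ‖z‖ₑ := by
        intro z
        rw [← ofReal_norm, ← ofReal_norm, RCLike.norm_conj]
      rw [e1, e1]
      exact enorm4_le _ _ _ _
  have hKm : Measurable fun q : ℝ × ℝ × ℝ => I q.2.1 * I q.2.2 * (φ q.1 +
      φ (q.1 - q.2.1 - q.2.2) + φ (q.1 - q.2.1) + φ (q.1 - q.2.2)) := by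
    have m1 : Measurable fun q : ℝ × ℝ × ℝ => I q.2.1 := hIm.comp (by fun_prop)
    have m2 : Measurable fun q : ℝ × ℝ × ℝ => I q.2.2 := hIm.comp (by fun_prop)
    have m3 : Measurable fun q : ℝ × ℝ × ℝ => φ q.1 := hφm.comp (by fun_prop)
    have m4 : Measurable fun q : ℝ × ℝ × ℝ => φ (q.1 - q.2.1 - q.2.2) := hφm.comp (by fun_prop)
    have m5 : Measurable fun q : ℝ × ℝ × ℝ => φ (q.1 - q.2.1) := hφm.comp (by fun_prop)
    have m6 : Measurable fun q : ℝ × ℝ × ℝ => φ (q.1 - q.2.2) := hφm.comp (by fun_prop)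
    exact (m1.mul m2).mul (((m3.add m4).add m5).add m6)
  refine (lintegral_mono hpt).trans ?_
  rw [Measure.volume_eq_prod, lintegral_prod_symm _ hKm.aemeasurable]
  have hin : ∀ y : ℝ × ℝ, ∫⁻ w : ℝ, I y.1 * I y.2 * (φ w + φ (w - y.1 - y.2) + φ (w - y.1) +
      φ (w - y.2)) = I y.1 * I y.2 * (4 * ∫⁻ w, φ w) := by
    intro y
    have mm : ∀ s : ℝ, Measurable fun w : ℝ => φ (w - s) := fun s => hφm.comp (by fun_prop)
    have mm2 : Measurable fun w : ℝ => φ (w - y.1 - y.2) := hφm.comp (by fun_prop)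
    have ee : ∀ s : ℝ, ∫⁻ w : ℝ, φ (w - s) = ∫⁻ w, φ w := fun s =>
      lintegral_sub_right_eq_self (μ := (volume : Measure ℝ)) φ s
    have e2 : ∫⁻ w : ℝ, φ (w - y.1 - y.2) = ∫⁻ w, φ w := by
      rw [← ee (y.1 + y.2)]
      refine lintegral_congr fun w => ?_
      rw [sub_sub]
    have n1 : Measurable fun w : ℝ => φ w + φ (w - y.1 - y.2) := hφm.add mm2
    have n2 : Measurable fun w : ℝ => φ w + φ (w - y.1 - y.2) + φ (w - y.1) := n1.add (mm _)
    have n3 : Measurable fun w : ℝ => φ w + φ (w - y.1 - y.2) + φ (w - y.1) + φ (w - y.2) :=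
      n2.add (mm _)
    calc ∫⁻ w : ℝ, I y.1 * I y.2 * (φ w + φ (w - y.1 - y.2) + φ (w - y.1) + φ (w - y.2))
        = I y.1 * I y.2 * ∫⁻ w : ℝ, (φ w + φ (w - y.1 - y.2) + φ (w - y.1) + φ (w - y.2)) :=
          lintegral_const_mul _ n3
      _ = I y.1 * I y.2 * (((∫⁻ w : ℝ, φ w) + (∫⁻ w : ℝ, φ (w - y.1 - y.2)) +
          ∫⁻ w : ℝ, φ (w - y.1)) + ∫⁻ w : ℝ, φ (w - y.2)) := by
          rw [lintegral_add_left n2, lintegral_add_left n1, lintegral_add_left hφm]
      _ = I y.1 * I y.2 * (4 * ∫⁻ w, φ w) := by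
          rw [ee, ee, e2]
          ring
  have hII : Measurable fun y : ℝ × ℝ => I y.1 * I y.2 :=
    (hIm.comp measurable_fst).mul (hIm.comp measurable_snd)
  simp only
  rw [lintegral_congr hin, lintegral_mul_const _ hII, Measure.volume_eq_prod,
    lintegral_prod_mul hIm.aemeasurable hIm.aemeasurable]
  have hI2 : ∫⁻ y, I y = ENNReal.ofReal (4 * δ) := by
    rw [hI, lintegral_indicator_one measurableSet_Icc, Real.volume_Icc]
    congr 1
    ring
  rw [hI2, ← mul_assoc, ← ENNReal.ofReal_mul (by positivity)]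
  refine mul_le_mul_left ?_ _
  have h4 : (4 : ℝ≥0∞) = ENNReal.ofReal 4 := by simp
  rw [h4, ← ENNReal.ofReal_mul (by positivity)]
  apply ENNReal.ofReal_le_ofReal
  nlinarith

end Pool.Agent.FN
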