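import Pool.Agent.FN.S1

/-!
FN, soft part: the planar `L⁴` estimate with a logarithm.
-/

namespace Pool.Agent.FN

open MeasureTheory Set Metric Pool.Agent.MP_6cbfb8_an Pool.Agent.MST Pool.Agent.N1
open scoped ENNReal Real

/-- Four points and concavity. -/
theorem four_pt {S : Set ℝ} {g : ℝ → ℝ} (hg : ConcaveOn ℝ S g) {p r u v : ℝ} (hp : p ∈ S)
    (hr : r ∈ S) (hu : p ≤ u) (hu' : u ≤ r) (huv : u + v = p + r) :
    g p + g r ≤ g u + g v := by
  rcases eq_or_lt_of_le (hu.trans hu') with h | h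
  · have h1 : u = p := le_antisymm (by rw [h]; exact hu') hu
    have h2 : v = r := by linarith
    rw [h1, h2]
  · have hd : 0 < r - p := by linarith
    set l : ℝ := (r - u) / (r - p) with hl
    have hl0 : 0 ≤ l := div_nonneg (by linarith) hd.le
    have hl1 : l ≤ 1 := by rw [hl, div_le_one hd]; linarith
    have e1 : l * (r - p) = r - u := by rw [hl]; field_simp
    have h1 := hg.2 hp hr hl0 (sub_nonneg.2 hl1) (by ring)
    have h2 := hg.2 hp hr (sub_nonneg.2 hl1) hl0 (by ring)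
    simp only [smul_eq_mul] at h1 h2
    have e2 : l * p + (1 - l) * r = u := by linarith
    have e3 : (1 - l) * p + l * r = v := by linarith
    rw [e2] at h1
    rw [e3] at h2
    linarith

/-- `√(A - b²) + b² / 2` is concave for `A ≤ 1`. -/
theorem conc (A : ℝ) (hA : A ≤ 1) :
    ConcaveOn ℝ {b : ℝ | b ^ 2 < A} (fun b => √(A - b ^ 2) + b ^ 2 / 2) := by
  have key : ∀ x ∈ {b : ℝ | b ^ 2 < A}, ∀ y ∈ {b : ℝ | b ^ 2 < A}, ∀ l k : ℝ, 0 ≤ l → 0 ≤ k →
      l + k = 1 → (l * x + k * y) ^ 2 < A ∧ l * (√(A - x ^ 2) + x ^ 2 / 2) +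
        k * (√(A - y ^ 2) + y ^ 2 / 2) ≤ √(A - (l * x + k * y) ^ 2) + (l * x + k * y) ^ 2 / 2 := by
    intro x hx y hy l k hl hk hlk
    simp only [mem_ofPred_eq] at hx hy
    obtain ⟨r, hr⟩ : ∃ r, r = √(A - x ^ 2) := ⟨_, rfl⟩
    obtain ⟨s, hs⟩ : ∃ s, s = √(A - y ^ 2) := ⟨_, rfl⟩
    have hr0 : 0 ≤ r := hr ▸ Real.sqrt_nonneg _
    have hs0 : 0 ≤ s := hs ▸ Real.sqrt_nonneg _
    have hr2 : r ^ 2 = A - x ^ 2 := by rw [hr, Real.sq_sqrt (by linarith)]
    have hs2 : s ^ 2 = A - y ^ 2 := by rw [hs, Real.sq_sqrt (by linarith)]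
    have hkl : k = 1 - l := by linarith
    have h1 : A - (l * x + k * y) ^ 2 =
        (l * r + k * s) ^ 2 + l * k * ((r - s) ^ 2 + (x - y) ^ 2) := by
      rw [hkl]
      linear_combination (-l) * hr2 + (-(1 - l)) * hs2
    have hm0 : 0 ≤ l * r + k * s := by positivity
    have hlk0 : 0 ≤ l * k := by positivity
    have hpos : 0 ≤ l * k * ((r - s) ^ 2 + (x - y) ^ 2) := by positivity
    constructor
    · have hlt : l * x ^ 2 + k * y ^ 2 < A := by
        rcases hl.eq_or_lt with h | h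
        · have : k = 1 := by linarith
          rw [← h, this]
          linarith
        · have e1 : l * x ^ 2 < l * A := mul_lt_mul_of_pos_left hx h
          have e2 : k * y ^ 2 ≤ k * A := mul_le_mul_of_nonneg_left hy.le hk
          have e3 : l * A + k * A = A := by rw [← add_mul, hlk, one_mul]
          linarith
      have e4 : (l * x + k * y) ^ 2 = l * x ^ 2 + k * y ^ 2 - l * k * (x - y) ^ 2 := by
        rw [hkl]; ring
      have e5 : 0 ≤ l * k * (x - y) ^ 2 := by positivity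
      linarith
    · rw [← hr, ← hs]
      have e4 : (l * x + k * y) ^ 2 = l * x ^ 2 + k * y ^ 2 - l * k * (x - y) ^ 2 := by
        rw [hkl]; ring
      have hm1 : (l * r + k * s) ^ 2 + l * k * (x - y) ^ 2 ≤ 1 := by
        have : 0 ≤ l * k * (r - s) ^ 2 := by positivity
        nlinarith [sq_nonneg (l * x + k * y)]
      obtain ⟨m, hm⟩ : ∃ m, m = l * r + k * s := ⟨_, rfl⟩
      obtain ⟨D, hD⟩ : ∃ D, D = l * k * (x - y) ^ 2 := ⟨_, rfl⟩
      have hD0 : 0 ≤ D := by rw [hD]; positivity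
      rw [← hm] at hm0 h1
      rw [← hm, ← hD] at hm1
      have hmle : m ≤ 1 := by nlinarith
      have hsq : m + D / 2 ≤ √(A - (l * x + k * y) ^ 2) := by
        apply Real.le_sqrt_of_sq_le
        rw [h1]
        have e6 : 0 ≤ l * k * (r - s) ^ 2 := by positivity
        have e7 : D ≤ 2 * (1 - m) := by nlinarith
        have e8 : (m + D / 2) ^ 2 ≤ m ^ 2 + D := by nlinarith
        have e9 : l * k * ((r - s) ^ 2 + (x - y) ^ 2) = l * k * (r - s) ^ 2 + D := by
          rw [hD]; ring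
        linarith
      rw [e4, ← hD] at hsq ⊢
      linarith
  constructor
  · intro x hx y hy l k hl hk hlk
    exact (key x hx y hy l k hl hk hlk).1
  · intro x hx y hy l k hl hk hlk
    exact (key x hx y hy l k hl hk hlk).2

/-- The four-term difference of `√(A - b²)` is at least `|y z|`. -/
theorem four_diff (A : ℝ) (hA : A ≤ 1) (b y z : ℝ) (h1 : b ^ 2 < A) (h2 : (b - y) ^ 2 < A)
    (h3 : (b - z) ^ 2 < A) (h4 : (b - y - z) ^ 2 < A) :
    |y * z| ≤ |√(A - b ^ 2) + √(A - (b - y - z) ^ 2) - √(A - (b - y) ^ 2) -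
      √(A - (b - z) ^ 2)| := by
  have hc := conc A hA
  rcases le_total 0 y with hy | hy
  · rcases le_total 0 z with hz | hz
    · have := four_pt hc (p := b - y - z) (r := b) (u := b - y) (v := b - z) h4 h1 (by linarith)
        (by linarith) (by ring)
      have hyz : 0 ≤ y * z := mul_nonneg hy hz
      rw [abs_of_nonneg hyz]
      refine le_trans ?_ (neg_le_abs _)
      nlinarith
    · have := four_pt hc (p := b - y) (r := b - z) (u := b) (v := b - y - z) h2 h3 (by linarith)
        (by linarith) (by ring)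
      have hyz : y * z ≤ 0 := mul_nonpos_of_nonneg_of_nonpos hy hz
      rw [abs_of_nonpos hyz]
      refine le_trans ?_ (le_abs_self _)
      nlinarith
  · rcases le_total 0 z with hz | hz
    · have := four_pt hc (p := b - z) (r := b - y) (u := b) (v := b - y - z) h3 h2 (by linarith)
        (by linarith) (by ring)
      have hyz : y * z ≤ 0 := mul_nonpos_of_nonpos_of_nonneg hy hz
      rw [abs_of_nonpos hyz]
      refine le_trans ?_ (le_abs_self _)
      nlinarith
    · have := four_pt hc (p := b) (r := b - y - z) (u := b - y) (v := b - z) h1 h4 (by linarith)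
        (by linarith) (by ring)
      have hyz : 0 ≤ y * z := mul_nonneg_of_nonpos_of_nonpos hy hz
      rw [abs_of_nonneg hyz]
      refine le_trans ?_ (neg_le_abs _)
      nlinarith

theorem lint_abs (h : ℝ → ℝ≥0∞) (R : ℝ) :
    ∫⁻ z in Icc (-R) R, h |z| ≤ 2 * ∫⁻ z in Icc 0 R, h z := by
  have hsub : Icc (-R) R ⊆ Icc (-R) 0 ∪ Icc 0 R := by
    intro z hz
    rcases le_total z 0 with h | h
    · exact Or.inl ⟨hz.1, h⟩
    · exact Or.inr ⟨h, hz.2⟩
  have h1 : ∫⁻ z in Icc 0 R, h |z| = ∫⁻ z in Icc 0 R, h z :=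
    setLIntegral_congr_fun measurableSet_Icc fun z hz => by
      show h |z| = h z
      rw [abs_of_nonneg hz.1]
  have h2 : ∫⁻ z in Icc (-R) 0, h |z| = ∫⁻ z in Icc 0 R, h |z| := by
    have m1 : MeasurePreserving (fun t : ℝ => -t) volume volume :=
      Measure.measurePreserving_neg (volume : Measure ℝ)
    have m2 : MeasurableEmbedding (fun t : ℝ => -t) := (MeasurableEquiv.neg ℝ).measurableEmbedding
    have h3 := m1.setLIntegral_comp_preimage_emb m2 (fun t : ℝ => h |t|) (Icc (-R) 0)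
    rw [← h3]
    have h4 : (fun t : ℝ => -t) ⁻¹' Icc (-R) 0 = Icc 0 R := by
      ext t
      simp only [mem_preimage, mem_Icc]
      constructor
      · rintro ⟨a, b⟩
        constructor <;> linarith
      · rintro ⟨a, b⟩
        constructor <;> linarith
    rw [h4]
    refine lintegral_congr fun t => ?_
    rw [abs_neg]
  calc ∫⁻ z in Icc (-R) R, h |z| ≤ ∫⁻ z in Icc (-R) 0 ∪ Icc 0 R, h |z| := lintegral_mono_set hsub
    _ ≤ (∫⁻ z in Icc (-R) 0, h |z|) + ∫⁻ z in Icc 0 R, h |z| := lintegral_union_le _ _ _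
    _ = 2 * ∫⁻ z in Icc 0 R, h z := by rw [h2, h1, two_mul]

theorem lint_Icc (f : ℝ → ℝ) (R : ℝ) (hR : 0 ≤ R) (hc : ContinuousOn f (Icc 0 R))
    (h0 : ∀ z ∈ Icc 0 R, 0 ≤ f z) :
    ∫⁻ z in Icc 0 R, ENNReal.ofReal (f z) = ENNReal.ofReal (∫ z in (0:ℝ)..R, f z) := by
  rw [intervalIntegral.integral_of_le hR, ← integral_Icc_eq_integral_Ioc,
    ofReal_integral_eq_lintegral_ofReal]
  · exact hc.integrableOn_Icc
  · exact (ae_restrict_iff' measurableSet_Icc).2 (Filter.Eventually.of_forall h0)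

theorem kin (T s : ℝ) (hT : 0 < T) (hs : 0 ≤ s) :
    ∫⁻ z in Icc (0:ℝ) 2, ENNReal.ofReal (T / (1 + s * z) ^ 2) =
      ENNReal.ofReal (2 * T / (1 + 2 * s)) := by
  have hne : ∀ z ∈ Icc (0:ℝ) 2, 0 < 1 + s * z := fun z hz => by
    have := mul_nonneg hs hz.1
    linarith
  have hcont : ContinuousOn (fun z : ℝ => T / (1 + s * z) ^ 2) (Icc 0 2) := by
    refine ContinuousOn.div continuousOn_const (by fun_prop) fun z hz => ?_
    have := hne z hz
    positivity
  rw [lint_Icc _ 2 (by norm_num) hcont fun z hz => by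
    have := hne z hz
    positivity]
  congr 1
  rw [intervalIntegral.integral_eq_sub_of_hasDerivAt (f := fun z => T * z / (1 + s * z))]
  · field_simp
    ring
  · intro z hz
    rw [uIcc_of_le (by norm_num : (0:ℝ) ≤ 2)] at hz
    have h1 := hne z hz
    have h2 : HasDerivAt (fun z : ℝ => T * z) (T * 1) z := (hasDerivAt_id z).const_mul T
    have h3 : HasDerivAt (fun z : ℝ => 1 + s * z) (s * 1) z :=
      ((hasDerivAt_id z).const_mul s).const_add 1
    have h4 := h2.div h3 h1.ne'
    refine h4.congr_deriv ?_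
    have h1' := h1.ne'
    field_simp
    ring
  · rw [intervalIntegrable_iff_integrableOn_Icc_of_le (by norm_num)]
    exact hcont.integrableOn_Icc

theorem kout (T : ℝ) (hT : 0 < T) :
    ∫⁻ y in Icc (0:ℝ) 2, ENNReal.ofReal (2 * T / (1 + 2 * (T * y))) =
      ENNReal.ofReal (Real.log (1 + 4 * T)) := by
  have hne : ∀ z ∈ Icc (0:ℝ) 2, 0 < 1 + 2 * (T * z) := fun z hz => by
    have := mul_nonneg hT.le hz.1
    linarith
  have hcont : ContinuousOn (fun z : ℝ => 2 * T / (1 + 2 * (T * z))) (Icc 0 2) := by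
    refine ContinuousOn.div continuousOn_const (by fun_prop) fun z hz => ?_
    have := hne z hz
    positivity
  rw [lint_Icc _ 2 (by norm_num) hcont fun z hz => by
    have := hne z hz
    positivity]
  congr 1
  rw [intervalIntegral.integral_eq_sub_of_hasDerivAt
    (f := fun z => Real.log (1 + 2 * (T * z)))]
  · rw [mul_zero, mul_zero, add_zero, Real.log_one, sub_zero]
    congr 1
    ring
  · intro z hz
    rw [uIcc_of_le (by norm_num : (0:ℝ) ≤ 2)] at hz
    have h1 := hne z hz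
    have h3 : HasDerivAt (fun z : ℝ => 1 + 2 * (T * z)) (2 * (T * 1)) z :=
      (((hasDerivAt_id z).const_mul T).const_mul 2).const_add 1
    have h4 := h3.log h1.ne'
    refine h4.congr_deriv ?_
    rw [mul_one]
  · rw [intervalIntegrable_iff_integrableOn_Icc_of_le (by norm_num)]
    exact hcont.integrableOn_Icc

theorem kint (T : ℝ) (hT : 1 ≤ T) :
    ∫⁻ y in Icc (-2:ℝ) 2, ∫⁻ z in Icc (-2:ℝ) 2, ENNReal.ofReal (T / (1 + T * |y * z|) ^ 2) ≤
      ENNReal.ofReal (8 * (1 + Real.log T)) := by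
  have hT0 : 0 < T := by linarith
  have hlog := Real.log_nonneg hT
  have h1 : ∀ y : ℝ, ∫⁻ z in Icc (-2:ℝ) 2, ENNReal.ofReal (T / (1 + T * |y * z|) ^ 2) ≤
      2 * ENNReal.ofReal (2 * T / (1 + 2 * (T * |y|))) := by
    intro y
    have h2 := lint_abs (fun z => ENNReal.ofReal (T / (1 + T * |y| * z) ^ 2)) 2
    rw [kin T (T * |y|) hT0 (by positivity)] at h2
    refine le_trans (le_of_eq ?_) h2
    refine lintegral_congr fun z => ?_
    rw [abs_mul, mul_assoc]
  calc ∫⁻ y in Icc (-2:ℝ) 2, ∫⁻ z in Icc (-2:ℝ) 2, ENNReal.ofReal (T / (1 + T * |y * z|) ^ 2)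
      ≤ ∫⁻ y in Icc (-2:ℝ) 2, 2 * ENNReal.ofReal (2 * T / (1 + 2 * (T * |y|))) :=
        lintegral_mono fun y => h1 y
    _ ≤ 2 * ∫⁻ y in Icc (0:ℝ) 2, 2 * ENNReal.ofReal (2 * T / (1 + 2 * (T * y))) :=
        lint_abs (fun y => 2 * ENNReal.ofReal (2 * T / (1 + 2 * (T * y)))) 2
    _ = 4 * ENNReal.ofReal (Real.log (1 + 4 * T)) := by
        rw [lintegral_const_mul' _ _ (by norm_num), kout T hT0, ← mul_assoc]
        norm_num
    _ ≤ ENNReal.ofReal (8 * (1 + Real.log T)) := by
        have h4 : (4 : ℝ≥0∞) = ENNReal.ofReal 4 := by simp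
        rw [h4, ← ENNReal.ofReal_mul (by norm_num)]
        apply ENNReal.ofReal_le_ofReal
        have h5 : Real.log (1 + 4 * T) ≤ Real.log (5 * T) :=
          Real.log_le_log (by linarith) (by linarith)
        rw [Real.log_mul (by norm_num) hT0.ne'] at h5
        have h6 : Real.log 5 ≤ 2 := by
          have : (5:ℝ) ≤ Real.exp 2 := by
            have h7 := Real.exp_one_gt_d9
            have h8 : Real.exp 2 = Real.exp 1 * Real.exp 1 := by
              rw [← Real.exp_add]; norm_num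
            rw [h8]
            nlinarith
          rw [Real.log_le_iff_le_exp (by norm_num)]
          exact this
        linarith

end Pool.Agent.FN
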