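import Pool.Agent.FN.S1b

/-!
FN, soft part: the planar `L⁴` estimate.
-/

namespace Pool.Agent.FN

open MeasureTheory Set Metric Pool.Agent.MP_6cbfb8_an Pool.Agent.MST Pool.Agent.N1
open scoped ENNReal Real

/-- The weight in the time variable. -/
noncomputable def muC (T : ℝ) : Measure ℝ :=
  (volume : Measure ℝ).withDensity fun t => ENNReal.ofReal (chi (t / T))

theorem chi_meas : Measurable chi := (f1_chi_smooth 0).continuous.measurable

theorem chi_one (s : ℝ) (h1 : 1 ≤ s) (h2 : s ≤ 2) : chi s = 1 := by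
  unfold chi
  rw [Real.smoothTransition.one_of_one_le (by linarith),
    Real.smoothTransition.one_of_one_le (by linarith), one_mul]

theorem muC_fin (T : ℝ) (hT : 0 < T) : IsFiniteMeasure (muC T) := by
  unfold muC
  apply isFiniteMeasure_withDensity_ofReal
  exact (f1_chi_int.comp_div hT.ne').2

theorem le_muC (T : ℝ) (hT : 0 < T) (f : ℝ → ℝ≥0∞) (hf : Measurable f) :
    ∫⁻ t in Icc T (2 * T), f t ≤ ∫⁻ t, f t ∂(muC T) := by
  have hm : Measurable fun t : ℝ => ENNReal.ofReal (chi (t / T)) :=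
    (chi_meas.comp (by fun_prop)).ennreal_ofReal
  unfold muC
  rw [lintegral_withDensity_eq_lintegral_mul _ hm hf, ← lintegral_indicator measurableSet_Icc]
  refine lintegral_mono fun t => ?_
  by_cases h : t ∈ Icc T (2 * T)
  · rw [indicator_of_mem h, Pi.mul_apply, chi_one (t / T)]
    · simp
    · rw [le_div_iff₀ hT]; linarith [h.1]
    · rw [div_le_iff₀ hT]; linarith [h.2]
  · rw [indicator_of_notMem h]
    exact zero_le

theorem int_muC (T x : ℝ) (W : ℂ) :
    ∫ t, W * ex (t * x) ∂(muC T) = W * Kt T x := by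
  have hm : Measurable fun t : ℝ => Real.toNNReal (chi (t / T)) :=
    (chi_meas.comp (by fun_prop)).real_toNNReal
  unfold muC Kt
  have h1 : (fun t : ℝ => ENNReal.ofReal (chi (t / T))) =
      fun t : ℝ => ((Real.toNNReal (chi (t / T)) : NNReal) : ℝ≥0∞) := rfl
  rw [h1, integral_withDensity_eq_integral_smul hm, ← integral_const_mul]
  refine integral_congr_ae (Filter.Eventually.of_forall fun t => ?_)
  simp only
  rw [NNReal.smul_def, Real.coe_toNNReal _ (f1_chi_nonneg _), Complex.real_smul]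
  ring

/-- The amplitude on a line. -/
noncomputable def Al (c a σ t b : ℝ) : ℂ :=
  ((wf c a b : ℝ) : ℂ) * ex (t * (σ * qf c a b))

theorem Al_meas (c : ℝ) (hc : 0 < c) (σ : ℝ) :
    Measurable fun q : ℝ × ℝ × ℝ => Al c q.1 σ q.2.1 q.2.2 := by
  unfold Al
  have m1 : Measurable fun q : ℝ × ℝ × ℝ => wf c q.1 q.2.2 :=
    (f1_wf_cont c hc).measurable.comp (f := fun q : ℝ × ℝ × ℝ => (q.1, q.2.2)) (by fun_prop)
  have m2 : Measurable fun q : ℝ × ℝ × ℝ => qf c q.1 q.2.2 :=
    (f1_qf_cont c).measurable.comp (f := fun q : ℝ × ℝ × ℝ => (q.1, q.2.2)) (by fun_prop)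
  have m3 : Measurable fun q : ℝ × ℝ × ℝ => ex (q.2.1 * (σ * qf c q.1 q.2.2)) :=
    f1_ex_cont.measurable.comp ((measurable_fst.comp measurable_snd).mul (m2.const_mul σ))
  exact (Complex.measurable_ofReal.comp m1).mul m3

theorem Al_norm (c : ℝ) (hc : 0 < c) (a σ t b : ℝ) : ‖Al c a σ t b‖ ≤ 2 / c := by
  unfold Al
  rw [norm_mul, ho2_ex, mul_one, Complex.norm_real, Real.norm_eq_abs]
  exact f1_wf_le c hc a b

theorem wf_ne (c : ℝ) (hc : 0 < c) (a b : ℝ) (h : wf c a b ≠ 0) :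
    b ^ 2 < 1 - a ^ 2 ∧ qf c a b = √(1 - a ^ 2 - b ^ 2) ∧ |a| ≤ 1 ∧ |b| ≤ 1 := by
  have h1 : ¬ (1 - a ^ 2 - b ^ 2 ≤ c ^ 2 / 4) := by
    intro h2
    exact h (f1_sma_zero c hc _ h2)
  push Not at h1
  refine ⟨?_, ?_, f1_wf_supp c hc a b h⟩
  · nlinarith [sq_nonneg c]
  · unfold qf Sq
    rw [Real.smoothTransition.one_of_one_le, mul_one]
    rw [le_div_iff₀ (by positivity)]
    nlinarith

theorem ex_conj (a : ℝ) : (starRingEnd ℂ) (ex a) = ex (-a) := by
  unfold ex
  rw [← Complex.exp_conj, map_mul, Complex.conj_ofReal, Complex.conj_I]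
  congr 1
  push_cast
  ring

/-- The planar `L⁴` estimate with a logarithm, on the circle of radius `√(1 - a²)`. -/
theorem planar4 (c : ℝ) (hc : 0 < c) : ∃ C : ℝ, 0 ≤ C ∧ ∀ T : ℝ, 1 ≤ T → ∀ σ : ℝ,
    (σ = 1 ∨ σ = -1) → ∀ (a : ℝ) (G : ℝ → ℂ), Measurable G → (∀ b, ‖G b‖ ≤ 1) →
    ∫⁻ t in Icc T (2 * T), ∫⁻ x : ℝ, ‖∫ b : ℝ, G b * Al c a σ t b * ex (b * x)‖ₑ ^ (4:ℝ) ≤
      ENNReal.ofReal (C * (1 + Real.log T)) := by
  obtain ⟨K, hK, hKt⟩ := Kt_le
  refine ⟨(2 / c) ^ 4 * K * 16, by positivity, ?_⟩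
  intro T hT σ hσ a G hG hb
  have hT0 : 0 < T := by linarith
  have hlog := Real.log_nonneg hT
  haveI := muC_fin T hT0
  have hAm : Measurable (Function.uncurry fun t b => Al c a σ t b) :=
    (Al_meas c hc σ).comp (f := fun q : ℝ × ℝ => (a, q.1, q.2)) (by fun_prop)
  have hsupp : ∀ t b, 1 < |b| → Al c a σ t b = 0 := by
    intro t b hb1
    unfold Al
    by_cases h : wf c a b = 0
    · rw [h]; simp
    · exact absurd (wf_ne c hc a b h).2.2.2 (not_le.2 hb1)
  have key := four1 (muC T) (fun t b => Al c a σ t b) hAm (2 / c) 1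
    (fun t b => Al_norm c hc a σ t b) hsupp G hG hb
  have hmeas : Measurable fun t : ℝ =>
      ∫⁻ x : ℝ, ‖∫ b : ℝ, G b * Al c a σ t b * ex (b * x)‖ₑ ^ (4:ℝ) := by
    have m1 : Measurable fun q : (ℝ × ℝ) × ℝ => G q.2 * Al c a σ q.1.1 q.2 * ex (q.2 * q.1.2) := by
      have n1 : Measurable fun q : (ℝ × ℝ) × ℝ => Al c a σ q.1.1 q.2 :=
        (Al_meas c hc σ).comp (f := fun q : (ℝ × ℝ) × ℝ => (a, q.1.1, q.2)) (by fun_prop)
      exact ((hG.comp measurable_snd).mul n1).mul (f1_ex_cont.measurable.comp (by fun_prop))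
    have m2 := (m1.stronglyMeasurable.integral_prod_right' (ν := (volume : Measure ℝ))).measurable
    exact (m2.enorm.pow_const 4).lintegral_prod_right'
  refine (le_muC T hT0 _ hmeas).trans (key.trans ?_)
  set I1 : ℝ → ℝ≥0∞ := (Icc (-1:ℝ) 1).indicator 1 with hI1
  set I2 : ℝ → ℝ≥0∞ := (Icc (-2:ℝ) 2).indicator 1 with hI2
  have hI1m : Measurable I1 := measurable_one.indicator measurableSet_Icc
  have hI2m : Measurable I2 := measurable_one.indicator measurableSet_Icc
  have hpt : ∀ q : ℝ × ℝ × ℝ, ‖∫ t, Al c a σ t q.1 * Al c a σ t (q.1 - q.2.1 - q.2.2) *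
        (starRingEnd ℂ) (Al c a σ t (q.1 - q.2.1)) *
        (starRingEnd ℂ) (Al c a σ t (q.1 - q.2.2)) ∂(muC T)‖ₑ ≤
      I1 q.1 * (I2 q.2.1 * (I2 q.2.2 *
        ENNReal.ofReal ((2 / c) ^ 4 * K * (T / (1 + T * |q.2.1 * q.2.2|) ^ 2)))) := by
    rintro ⟨b, y, z⟩
    simp only
    set F : ℝ := qf c a b + qf c a (b - y - z) - qf c a (b - y) - qf c a (b - z) with hF
    set W : ℂ := (((wf c a b) * (wf c a (b - y - z)) * (wf c a (b - y)) * (wf c a (b - z)) : ℝ) : ℂ)
      with hW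
    have h1 : ∀ t, Al c a σ t b * Al c a σ t (b - y - z) * (starRingEnd ℂ) (Al c a σ t (b - y)) *
        (starRingEnd ℂ) (Al c a σ t (b - z)) = W * ex (t * (σ * F)) := by
      intro t
      unfold Al
      have h2 : ex (t * (σ * F)) = ex (t * (σ * qf c a b)) * ex (t * (σ * qf c a (b - y - z))) *
          ex (-(t * (σ * qf c a (b - y)))) * ex (-(t * (σ * qf c a (b - z)))) := by
        rw [← hlf_ex_add, ← hlf_ex_add, ← hlf_ex_add]
        congr 1
        rw [hF]
        ring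
      rw [h2, map_mul, map_mul, ex_conj, ex_conj, Complex.conj_ofReal, Complex.conj_ofReal, hW]
      push_cast
      ring
    rw [integral_congr_ae (Filter.Eventually.of_forall h1), int_muC]
    by_cases hw : wf c a b = 0 ∨ wf c a (b - y - z) = 0 ∨ wf c a (b - y) = 0 ∨
        wf c a (b - z) = 0
    · have hW0 : W = 0 := by
        rw [hW]
        rcases hw with h | h | h | h <;> rw [h] <;> simp
      rw [hW0, zero_mul, enorm_zero]
      exact zero_le
    · push Not at hw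
      obtain ⟨w1, w2, w3, w4⟩ := hw
      obtain ⟨a1, b1, -, d1⟩ := wf_ne c hc a _ w1
      obtain ⟨a2, b2, -, d2⟩ := wf_ne c hc a _ w2
      obtain ⟨a3, b3, -, d3⟩ := wf_ne c hc a _ w3
      obtain ⟨a4, b4, -, d4⟩ := wf_ne c hc a _ w4
      have e1 := abs_le.1 d1
      have e3 := abs_le.1 d3
      have e4 := abs_le.1 d4
      have i1 : I1 b = 1 := by
        have hmem : b ∈ Icc (-1:ℝ) 1 := e1
        rw [hI1, indicator_of_mem hmem, Pi.one_apply]
      have i2 : I2 y = 1 := by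
        have hmem : y ∈ Icc (-2:ℝ) 2 := ⟨by linarith, by linarith⟩
        rw [hI2, indicator_of_mem hmem, Pi.one_apply]
      have i3 : I2 z = 1 := by
        have hmem : z ∈ Icc (-2:ℝ) 2 := ⟨by linarith, by linarith⟩
        rw [hI2, indicator_of_mem hmem, Pi.one_apply]
      rw [i1, i2, i3, one_mul, one_mul, one_mul, ← ofReal_norm]
      apply ENNReal.ofReal_le_ofReal
      rw [norm_mul]
      have hWn : ‖W‖ ≤ (2 / c) ^ 4 := by
        rw [hW, Complex.norm_real, Real.norm_eq_abs, abs_mul, abs_mul, abs_mul]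
        have g := f1_wf_le c hc a
        calc |wf c a b| * |wf c a (b - y - z)| * |wf c a (b - y)| * |wf c a (b - z)|
            ≤ (2 / c) * (2 / c) * (2 / c) * (2 / c) := by
              gcongr
              · exact g _
              · exact g _
              · exact g _
              · exact g _
          _ = (2 / c) ^ 4 := by ring
      have hFl : |y * z| ≤ |σ * F| := by
        have h5 := four_diff (1 - a ^ 2) (by nlinarith [sq_nonneg a]) b y z a1 a3 a4 a2
        have h6 : |σ * F| = |F| := by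
          rcases hσ with h | h <;> rw [h] <;> simp
        rw [h6, hF, b1, b2, b3, b4]
        exact h5
      have hKn : ‖Kt T (σ * F)‖ ≤ K * (T / (1 + T * |y * z|) ^ 2) := by
        refine (hKt T _ hT0).trans ?_
        rw [mul_div_assoc]
        refine mul_le_mul_of_nonneg_left ?_ hK
        refine div_le_div_of_nonneg_left hT0.le (by positivity) ?_
        have h7 : 1 + T * |y * z| ≤ 1 + T * |σ * F| := by
          have := mul_le_mul_of_nonneg_left hFl hT0.le
          linarith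
        have h8 : 1 ≤ 1 + T * |y * z| := by
          have : 0 ≤ T * |y * z| := by positivity
          linarith
        calc (1 + T * |y * z|) ^ 2 ≤ (1 + T * |y * z|) ^ 3 := pow_le_pow_right₀ h8 (by norm_num)
          _ ≤ (1 + T * |σ * F|) ^ 3 := pow_le_pow_left₀ (by positivity) h7 3
      calc ‖W‖ * ‖Kt T (σ * F)‖ ≤ (2 / c) ^ 4 * (K * (T / (1 + T * |y * z|) ^ 2)) :=
            mul_le_mul hWn hKn (norm_nonneg _) (by positivity)
        _ = (2 / c) ^ 4 * K * (T / (1 + T * |y * z|) ^ 2) := by ring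
  have hgm : Measurable fun p : ℝ × ℝ =>
      ENNReal.ofReal ((2 / c) ^ 4 * K * (T / (1 + T * |p.1 * p.2|) ^ 2)) := by
    refine Measurable.ennreal_ofReal ?_
    fun_prop
  refine (lintegral_mono hpt).trans ?_
  have hm2 : Measurable fun p : ℝ × ℝ => I2 p.1 * (I2 p.2 *
      ENNReal.ofReal ((2 / c) ^ 4 * K * (T / (1 + T * |p.1 * p.2|) ^ 2))) :=
    (hI2m.comp measurable_fst).mul ((hI2m.comp measurable_snd).mul hgm)
  rw [Measure.volume_eq_prod, lintegral_prod_mul (f := I1)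
    (g := fun p : ℝ × ℝ => I2 p.1 * (I2 p.2 *
      ENNReal.ofReal ((2 / c) ^ 4 * K * (T / (1 + T * |p.1 * p.2|) ^ 2))))
    hI1m.aemeasurable hm2.aemeasurable]
  have hJ1 : ∫⁻ y, I1 y = 2 := by
    rw [hI1, lintegral_indicator_one measurableSet_Icc, Real.volume_Icc]
    norm_num
  have hJ2 : ∫⁻ p : ℝ × ℝ, I2 p.1 * (I2 p.2 *
      ENNReal.ofReal ((2 / c) ^ 4 * K * (T / (1 + T * |p.1 * p.2|) ^ 2))) ≤
      ENNReal.ofReal ((2 / c) ^ 4 * K * (8 * (1 + Real.log T))) := by
    rw [Measure.volume_eq_prod, lintegral_prod _ hm2.aemeasurable]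
    have h9 : ∀ y : ℝ, ∫⁻ z : ℝ, I2 y * (I2 z *
        ENNReal.ofReal ((2 / c) ^ 4 * K * (T / (1 + T * |y * z|) ^ 2))) =
        (Icc (-2:ℝ) 2).indicator (fun y => ∫⁻ z in Icc (-2:ℝ) 2,
          ENNReal.ofReal ((2 / c) ^ 4 * K * (T / (1 + T * |y * z|) ^ 2))) y := by
      intro y
      by_cases hy : y ∈ Icc (-2:ℝ) 2
      · rw [indicator_of_mem hy, hI2, indicator_of_mem hy, Pi.one_apply,
          ← lintegral_indicator measurableSet_Icc]
        refine lintegral_congr fun z => ?_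
        by_cases hz : z ∈ Icc (-2:ℝ) 2
        · rw [indicator_of_mem hz, indicator_of_mem hz, Pi.one_apply, one_mul, one_mul]
        · rw [indicator_of_notMem hz, indicator_of_notMem hz, zero_mul, mul_zero]
      · rw [indicator_of_notMem hy, hI2, indicator_of_notMem hy]
        simp
    rw [lintegral_congr h9, lintegral_indicator measurableSet_Icc]
    have h10 : ∀ y z : ℝ, ENNReal.ofReal ((2 / c) ^ 4 * K * (T / (1 + T * |y * z|) ^ 2)) =
        ENNReal.ofReal ((2 / c) ^ 4 * K) * ENNReal.ofReal (T / (1 + T * |y * z|) ^ 2) :=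
      fun y z => ENNReal.ofReal_mul (by positivity)
    simp only [h10]
    have h11 : ∀ y : ℝ, ∫⁻ z in Icc (-2:ℝ) 2, ENNReal.ofReal ((2 / c) ^ 4 * K) *
        ENNReal.ofReal (T / (1 + T * |y * z|) ^ 2) = ENNReal.ofReal ((2 / c) ^ 4 * K) *
        ∫⁻ z in Icc (-2:ℝ) 2, ENNReal.ofReal (T / (1 + T * |y * z|) ^ 2) :=
      fun y => lintegral_const_mul' _ _ ENNReal.ofReal_ne_top
    simp only [h11]
    rw [lintegral_const_mul' _ _ ENNReal.ofReal_ne_top, ENNReal.ofReal_mul (p := (2 / c) ^ 4 * K)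
      (by positivity)]
    exact mul_le_mul_right (kint T hT) _
  rw [hJ1]
  refine (mul_le_mul_right hJ2 _).trans ?_
  have h2 : (2 : ℝ≥0∞) = ENNReal.ofReal 2 := by simp
  rw [h2, ← ENNReal.ofReal_mul (by norm_num)]
  apply ENNReal.ofReal_le_ofReal
  have : 0 ≤ (2 / c) ^ 4 * K * (1 + Real.log T) := by positivity
  linarith

end Pool.Agent.FN
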