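import Pool.Agent.FN.S1c

/-!
FN, soft part: the `L⁴` estimate on strips.
-/

namespace Pool.Agent.FN

open MeasureTheory Set Metric Pool.Agent.MP_6cbfb8_an Pool.Agent.MST Pool.Agent.N1
open scoped ENNReal Real

/-- The planar integral. -/
noncomputable def Pl (c : ℝ) (G : ℝ → ℂ) (a t y : ℝ) : ℂ :=
  ∫ b : ℝ, G b * Al c a 1 t b * ex (b * y)

theorem Pl_meas (c : ℝ) (hc : 0 < c) (G : ℝ → ℂ) (hG : Measurable G) :
    Measurable fun q : ℝ × ℝ × ℝ => Pl c G q.1 q.2.1 q.2.2 := by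
  have m1 : Measurable fun q : (ℝ × ℝ × ℝ) × ℝ =>
      G q.2 * Al c q.1.1 1 q.1.2.1 q.2 * ex (q.2 * q.1.2.2) := by
    have n1 : Measurable fun q : (ℝ × ℝ × ℝ) × ℝ => Al c q.1.1 1 q.1.2.1 q.2 :=
      (Al_meas c hc 1).comp (f := fun q : (ℝ × ℝ × ℝ) × ℝ => (q.1.1, q.1.2.1, q.2)) (by fun_prop)
    exact ((hG.comp measurable_snd).mul n1).mul (f1_ex_cont.measurable.comp (by fun_prop))
  exact (m1.stronglyMeasurable.integral_prod_right' (ν := (volume : Measure ℝ))).measurable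

theorem Pl_norm (c : ℝ) (hc : 0 < c) (G : ℝ → ℂ) (hb : ∀ b, ‖G b‖ ≤ 1) (a t y : ℝ) :
    ‖Pl c G a t y‖ ≤ 4 / c := by
  have hint : Integrable ((Icc (-1:ℝ) 1).indicator (fun _ => 2 / c)) :=
    (integrable_indicator_iff measurableSet_Icc).2
      (integrableOn_const (by rw [Real.volume_Icc]; exact ENNReal.ofReal_ne_top))
  unfold Pl
  refine (norm_integral_le_of_norm_le hint (Filter.Eventually.of_forall fun b => ?_)).trans ?_
  · rw [norm_mul, norm_mul, ho2_ex, mul_one]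
    by_cases h : wf c a b = 0
    · have : Al c a 1 t b = 0 := by unfold Al; rw [h]; simp
      rw [this, norm_zero, mul_zero]
      exact indicator_nonneg (fun _ _ => by positivity) b
    · have hmem : b ∈ Icc (-1:ℝ) 1 := abs_le.1 (wf_ne c hc a b h).2.2.2
      rw [indicator_of_mem hmem]
      calc ‖G b‖ * ‖Al c a 1 t b‖ ≤ 1 * (2 / c) :=
            mul_le_mul (hb b) (Al_norm c hc a 1 t b) (norm_nonneg _) zero_le_one
        _ = 2 / c := one_mul _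
  · rw [integral_indicator measurableSet_Icc, setIntegral_const, smul_eq_mul, Measure.real,
      Real.volume_Icc, ENNReal.toReal_ofReal (by norm_num)]
    apply le_of_eq
    ring

theorem Eo_iter (c : ℝ) (hc : 0 < c) (G₁ G₂ : ℝ → ℂ) (h1 : Measurable G₁) (h2 : Measurable G₂)
    (b1 : ∀ a, ‖G₁ a‖ ≤ 1) (b2 : ∀ a, ‖G₂ a‖ ≤ 1) (t : ℝ) (ξ : ℝ × ℝ) :
    Eo c G₁ G₂ t ξ = ∫ a : ℝ, (G₁ a * Pl c G₂ a t ξ.2) * ex (a * ξ.1) := by
  have hi := Ei_int c hc G₁ G₂ h1 h2 b1 b2 t ξ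
  have h3 : Eo c G₁ G₂ t ξ = ∫ x : ℝ × ℝ, Ei c G₁ G₂ t ξ x := rfl
  rw [h3, Measure.volume_eq_prod, integral_prod _ hi]
  refine integral_congr_ae (Filter.Eventually.of_forall fun a => ?_)
  unfold Pl Ei Al
  simp only
  rw [← integral_const_mul, ← integral_mul_const]
  refine integral_congr_ae (Filter.Eventually.of_forall fun b => ?_)
  simp only
  rw [hlf_ex_add, one_mul]
  ring

theorem strip_L4 (c : ℝ) (hc : 0 < c) : ∃ C : ℝ, 0 ≤ C ∧ ∀ T : ℝ, 1 ≤ T → ∀ δ : ℝ, 0 < δ →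
    ∀ G₁ G₂ : ℝ → ℂ, Measurable G₁ → Measurable G₂ → (∀ a, ‖G₁ a‖ ≤ 1) → (∀ b, ‖G₂ b‖ ≤ 1) →
    (∀ a, G₁ a ≠ 0 → |a| ≤ δ) → S4 c G₁ G₂ T ≤ ENNReal.ofReal (C * (1 + Real.log T) * δ ^ 3) := by
  obtain ⟨C, hC, H⟩ := planar4 c hc
  refine ⟨128 * C, by positivity, ?_⟩
  intro T hT δ hδ G₁ G₂ h1 h2 b1 b2 s1
  have hlog := Real.log_nonneg hT
  have hPm := Pl_meas c hc G₂ h2
  have hh : Measurable fun q : ℝ × ℝ × ℝ => ‖Pl c G₂ q.1 q.2.1 q.2.2‖ₑ ^ (4:ℝ) :=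
    hPm.enorm.pow_const _
  have hfix : ∀ t y : ℝ, Measurable fun a : ℝ => G₁ a * Pl c G₂ a t y := fun t y =>
    h1.mul (hPm.comp (f := fun a : ℝ => (a, t, y)) (by fun_prop))
  have hin : ∀ t : ℝ, ∫⁻ ξ : ℝ × ℝ, ‖Eo c G₁ G₂ t ξ‖ₑ ^ 4 ≤
      ENNReal.ofReal (64 * δ ^ 2) * ∫⁻ y : ℝ, ∫⁻ a in Icc (-δ) δ, ‖Pl c G₂ a t y‖ₑ ^ (4:ℝ) := by
    intro t
    have hm : Measurable fun ξ : ℝ × ℝ => ‖Eo c G₁ G₂ t ξ‖ₑ ^ 4 :=
      ((Eo_meas c hc G₁ G₂ h1 h2).comp (f := fun ξ : ℝ × ℝ => (t, ξ)) (by fun_prop)).enorm.pow_const 4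
    rw [Measure.volume_eq_prod, lintegral_prod_symm _ hm.aemeasurable,
      ← lintegral_const_mul' _ _ ENNReal.ofReal_ne_top]
    refine lintegral_mono fun y => ?_
    have key := l4a (fun a => G₁ a * Pl c G₂ a t y) (hfix t y) (4 / c) (fun a => by
      rw [norm_mul]
      calc ‖G₁ a‖ * ‖Pl c G₂ a t y‖ ≤ 1 * (4 / c) :=
            mul_le_mul (b1 a) (Pl_norm c hc G₂ b2 a t y) (norm_nonneg _) zero_le_one
        _ = 4 / c := one_mul _) δ hδ (fun a ha => by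
      have : G₁ a = 0 := by
        by_contra h
        exact absurd (s1 a h) (not_le.2 ha)
      rw [this, zero_mul])
    have h4 : ∀ x : ℝ, ‖Eo c G₁ G₂ t (x, y)‖ₑ ^ 4 =
        ‖∫ a : ℝ, (G₁ a * Pl c G₂ a t y) * ex (a * x)‖ₑ ^ (4:ℝ) := by
      intro x
      rw [Eo_iter c hc G₁ G₂ h1 h2 b1 b2]
      have : (4:ℝ) = ((4:ℕ):ℝ) := by norm_num
      rw [this, ENNReal.rpow_natCast]
    rw [lintegral_congr h4]
    refine key.trans ?_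
    refine mul_le_mul_right ?_ _
    rw [← lintegral_indicator measurableSet_Icc]
    refine lintegral_mono fun a => ?_
    by_cases ha : G₁ a = 0
    · rw [ha, zero_mul, enorm_zero, ENNReal.zero_rpow_of_pos (by norm_num)]
      exact zero_le
    · have hmem : a ∈ Icc (-δ) δ := abs_le.1 (s1 a ha)
      rw [indicator_of_mem hmem]
      refine ENNReal.rpow_le_rpow ?_ (by norm_num)
      rw [enorm_mul]
      have : ‖G₁ a‖ₑ ≤ 1 := by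
        rw [← ofReal_norm]
        exact ENNReal.ofReal_le_one.2 (b1 a)
      calc ‖G₁ a‖ₑ * ‖Pl c G₂ a t y‖ₑ ≤ 1 * ‖Pl c G₂ a t y‖ₑ := mul_le_mul_left this _
        _ = ‖Pl c G₂ a t y‖ₑ := one_mul _
  unfold S4
  calc ∫⁻ t in Icc T (2 * T), ∫⁻ ξ : ℝ × ℝ, ‖Eo c G₁ G₂ t ξ‖ₑ ^ 4
      ≤ ∫⁻ t in Icc T (2 * T), ENNReal.ofReal (64 * δ ^ 2) *
          ∫⁻ y : ℝ, ∫⁻ a in Icc (-δ) δ, ‖Pl c G₂ a t y‖ₑ ^ (4:ℝ) := lintegral_mono fun t => hin t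
    _ = ENNReal.ofReal (64 * δ ^ 2) * ∫⁻ t in Icc T (2 * T),
          ∫⁻ y : ℝ, ∫⁻ a in Icc (-δ) δ, ‖Pl c G₂ a t y‖ₑ ^ (4:ℝ) :=
        lintegral_const_mul' _ _ ENNReal.ofReal_ne_top
    _ = ENNReal.ofReal (64 * δ ^ 2) * ∫⁻ a in Icc (-δ) δ, ∫⁻ t in Icc T (2 * T),
          ∫⁻ y : ℝ, ‖Pl c G₂ a t y‖ₑ ^ (4:ℝ) := by
        congr 1
        have e1 : ∀ t : ℝ, ∫⁻ y : ℝ, ∫⁻ a in Icc (-δ) δ, ‖Pl c G₂ a t y‖ₑ ^ (4:ℝ) =
            ∫⁻ a in Icc (-δ) δ, ∫⁻ y : ℝ, ‖Pl c G₂ a t y‖ₑ ^ (4:ℝ) := by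
          intro t
          refine lintegral_lintegral_swap ?_
          exact (hh.comp (f := fun q : ℝ × ℝ => (q.2, t, q.1)) (by fun_prop)).aemeasurable
        rw [lintegral_congr e1]
        refine lintegral_lintegral_swap ?_
        have e2 : Measurable fun q : ℝ × ℝ => ∫⁻ y : ℝ, ‖Pl c G₂ q.2 q.1 y‖ₑ ^ (4:ℝ) := by
          have e3 : Measurable fun q : (ℝ × ℝ) × ℝ => ‖Pl c G₂ q.1.2 q.1.1 q.2‖ₑ ^ (4:ℝ) :=
            hh.comp (f := fun q : (ℝ × ℝ) × ℝ => (q.1.2, q.1.1, q.2)) (by fun_prop)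
          exact e3.lintegral_prod_right'
        exact e2.aemeasurable
    _ ≤ ENNReal.ofReal (64 * δ ^ 2) * ∫⁻ _a in Icc (-δ) δ,
          ENNReal.ofReal (C * (1 + Real.log T)) := by
        refine mul_le_mul_right ?_ _
        exact lintegral_mono fun a => H T hT 1 (Or.inl rfl) a G₂ h2 b2
    _ = ENNReal.ofReal (128 * C * (1 + Real.log T) * δ ^ 3) := by
        rw [setLIntegral_const, Real.volume_Icc, ← ENNReal.ofReal_mul (by positivity),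
          ← ENNReal.ofReal_mul (by positivity)]
        congr 1
        ring

theorem Eo_swap (c : ℝ) (G₁ G₂ : ℝ → ℂ) (t : ℝ) (ξ : ℝ × ℝ) :
    Eo c G₂ G₁ t ξ = Eo c G₁ G₂ t ξ.swap := by
  unfold Eo
  have h1 : MeasurePreserving (Prod.swap : ℝ × ℝ → ℝ × ℝ) volume volume :=
    Measure.measurePreserving_swap
  rw [← h1.integral_comp MeasurableEquiv.prodComm.measurableEmbedding]
  refine integral_congr_ae (Filter.Eventually.of_forall fun x => ?_)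
  simp only [Prod.fst_swap, Prod.snd_swap]
  rw [f1_wf_comm c x.2 x.1, f1_qf_comm c x.2 x.1]
  rw [add_comm (x.2 * ξ.1) (x.1 * ξ.2)]
  ring

theorem S4_swap (c : ℝ) (G₁ G₂ : ℝ → ℂ) (T : ℝ) : S4 c G₂ G₁ T = S4 c G₁ G₂ T := by
  unfold S4
  refine lintegral_congr fun t => ?_
  have h1 : MeasurePreserving (Prod.swap : ℝ × ℝ → ℝ × ℝ) volume volume :=
    Measure.measurePreserving_swap
  rw [← h1.lintegral_comp_emb MeasurableEquiv.prodComm.measurableEmbedding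
    (fun ξ : ℝ × ℝ => ‖Eo c G₁ G₂ t ξ‖ₑ ^ 4)]
  refine lintegral_congr fun ξ => ?_
  rw [Eo_swap]

end Pool.Agent.FN
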