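import Pool.Agent.FN.S2

/-!
FN, soft part: from dyadic pieces to all product densities.
-/

namespace Pool.Agent.FN

open MeasureTheory Set Metric Pool.Agent.MP_6cbfb8_an Pool.Agent.MST Pool.Agent.N1
open scoped ENNReal Real

/-- The dyadic `L⁴` estimate for dyadic pieces. -/
def L4P (c : ℝ) : Prop := ∃ C : ℝ, 0 ≤ C ∧ ∃ k : ℕ, ∀ T : ℝ, 1 ≤ T → ∀ m n : ℝ,
    T ^ (-(1 / 2) : ℝ) ≤ m → m ≤ 1 → T ^ (-(1 / 2) : ℝ) ≤ n → n ≤ 1 → ∀ G₁ G₂ : ℝ → ℂ,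
    Measurable G₁ → Measurable G₂ → (∀ a, ‖G₁ a‖ ≤ 1) → (∀ b, ‖G₂ b‖ ≤ 1) →
    (∀ a, G₁ a ≠ 0 → m ≤ a ∧ a ≤ 2 * m) → (∀ b, G₂ b ≠ 0 → n ≤ b ∧ b ≤ 2 * n) →
    ∫⁻ t in Icc T (2 * T), ∫⁻ ξ : ℝ × ℝ, ‖Eo c G₁ G₂ t ξ‖ₑ ^ 4 ≤
      ENNReal.ofReal (C * (1 + Real.log T) ^ k / T)

theorem pow4_sum {ι : Type*} (s : Finset ι) (f : ι → ℝ≥0∞) :
    (∑ i ∈ s, f i) ^ 4 ≤ (s.card : ℝ≥0∞) ^ 3 * ∑ i ∈ s, f i ^ 4 := by
  have h := ENNReal.rpow_sum_le_const_mul_sum_rpow s f (p := 4) (by norm_num)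
  have e1 : ∀ x : ℝ≥0∞, x ^ (4:ℝ) = x ^ 4 := fun x => by
    have : (4:ℝ) = ((4:ℕ):ℝ) := by norm_num
    rw [this, ENNReal.rpow_natCast]
  have e2 : ∀ x : ℝ≥0∞, x ^ ((4:ℝ) - 1) = x ^ 3 := fun x => by
    have : ((4:ℝ) - 1) = ((3:ℕ):ℝ) := by norm_num
    rw [this, ENNReal.rpow_natCast]
  simp only [e1, e2] at h
  exact h

/-- Finite decompositions of a product density. -/
theorem S4_sum (c : ℝ) (hc : 0 < c) {ι : Type*} (s : Finset ι) (A B : ι → ℝ → ℂ)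
    (D₁ D₂ : ℝ → ℂ) (hA : ∀ i, Measurable (A i)) (hB : ∀ i, Measurable (B i))
    (nA : ∀ i a, ‖A i a‖ ≤ 1) (nB : ∀ i b, ‖B i b‖ ≤ 1)
    (hD : ∀ x : ℝ × ℝ, wf c x.1 x.2 ≠ 0 → D₁ x.1 * D₂ x.2 = ∑ i ∈ s, A i x.1 * B i x.2) (T : ℝ) :
    S4 c D₁ D₂ T ≤ (s.card : ℝ≥0∞) ^ 3 * ∑ i ∈ s, S4 c (A i) (B i) T := by
  have hE : ∀ t ξ, Eo c D₁ D₂ t ξ = ∑ i ∈ s, Eo c (A i) (B i) t ξ := by
    intro t ξ
    have h1 : ∀ i ∈ s, Integrable (Ei c (A i) (B i) t ξ) := fun i _ =>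
      Ei_int c hc _ _ (hA i) (hB i) (nA i) (nB i) t ξ
    have h2 := integral_finsetSum s h1
    have h3 : Eo c D₁ D₂ t ξ = ∫ x, ∑ i ∈ s, Ei c (A i) (B i) t ξ x := by
      unfold Eo Ei
      refine integral_congr_ae (Filter.Eventually.of_forall fun x => ?_)
      simp only
      by_cases hw : wf c x.1 x.2 = 0
      · rw [hw]
        simp
      · rw [hD x hw, Finset.sum_mul, Finset.sum_mul, Finset.sum_mul]
    rw [h3, h2]
    rfl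
  have hpt : ∀ t ξ, ‖Eo c D₁ D₂ t ξ‖ₑ ^ 4 ≤
      (s.card : ℝ≥0∞) ^ 3 * ∑ i ∈ s, ‖Eo c (A i) (B i) t ξ‖ₑ ^ 4 := by
    intro t ξ
    rw [hE]
    refine le_trans ?_ (pow4_sum s fun i => ‖Eo c (A i) (B i) t ξ‖ₑ)
    gcongr
    exact enorm_sum_le _ _
  have hm : ∀ i t, Measurable fun ξ : ℝ × ℝ => ‖Eo c (A i) (B i) t ξ‖ₑ ^ 4 := fun i t =>
    ((Eo_meas c hc _ _ (hA i) (hB i)).comp (f := fun ξ : ℝ × ℝ => (t, ξ))
      (by fun_prop)).enorm.pow_const 4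
  have hcard : (s.card : ℝ≥0∞) ^ 3 ≠ ∞ := ENNReal.pow_ne_top (ENNReal.natCast_ne_top _)
  unfold S4
  calc ∫⁻ t in Icc T (2 * T), ∫⁻ ξ : ℝ × ℝ, ‖Eo c D₁ D₂ t ξ‖ₑ ^ 4
      ≤ ∫⁻ t in Icc T (2 * T), ∫⁻ ξ : ℝ × ℝ,
          (s.card : ℝ≥0∞) ^ 3 * ∑ i ∈ s, ‖Eo c (A i) (B i) t ξ‖ₑ ^ 4 :=
        lintegral_mono fun t => lintegral_mono fun ξ => hpt t ξ
    _ = ∫⁻ t in Icc T (2 * T), (s.card : ℝ≥0∞) ^ 3 *
          ∑ i ∈ s, ∫⁻ ξ : ℝ × ℝ, ‖Eo c (A i) (B i) t ξ‖ₑ ^ 4 := by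
        refine lintegral_congr fun t => ?_
        rw [lintegral_const_mul' _ _ hcard, lintegral_finsetSum _ fun i _ => hm i t]
    _ = (s.card : ℝ≥0∞) ^ 3 * ∑ i ∈ s,
          ∫⁻ t in Icc T (2 * T), ∫⁻ ξ : ℝ × ℝ, ‖Eo c (A i) (B i) t ξ‖ₑ ^ 4 := by
        rw [lintegral_const_mul' _ _ hcard,
          lintegral_finsetSum _ fun i _ => S4_inner_meas c hc _ _ (hA i) (hB i)]

/-- Restriction to `a ≤ 2⁻ⁱ`. -/
noncomputable def ct (i : ℕ) (G : ℝ → ℂ) (a : ℝ) : ℂ := if a ≤ (1 / 2) ^ i then G a else 0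

theorem ct_meas (i : ℕ) (G : ℝ → ℂ) (h : Measurable G) : Measurable (ct i G) := by
  unfold ct
  exact Measurable.ite (measurableSet_Iic : MeasurableSet (Iic ((1 / 2 : ℝ) ^ i))) h
    measurable_const

theorem ct_norm (i : ℕ) (G : ℝ → ℂ) (h : ∀ a, ‖G a‖ ≤ 1) (a : ℝ) : ‖ct i G a‖ ≤ 1 := by
  unfold ct
  split_ifs
  · exact h a
  · simp

theorem cd_norm (i j : ℕ) (hij : i ≤ j) (G : ℝ → ℂ) (h : ∀ a, ‖G a‖ ≤ 1) (a : ℝ) :
    ‖ct i G a - ct j G a‖ ≤ 1 := by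
  unfold ct
  have h1 : ((1:ℝ) / 2) ^ j ≤ (1 / 2) ^ i :=
    pow_le_pow_of_le_one (by norm_num) (by norm_num) hij
  split_ifs with h2 h3 h3
  · simp
  · rw [sub_zero]; exact h a
  · exact absurd (h3.trans h1) h2
  · simp

theorem cd_supp (i : ℕ) (G : ℝ → ℂ) (a : ℝ) (h : ct i G a - ct (i + 1) G a ≠ 0) :
    (1 / 2 : ℝ) ^ (i + 1) ≤ a ∧ a ≤ 2 * (1 / 2 : ℝ) ^ (i + 1) := by
  unfold ct at h
  have h1 : ((1:ℝ) / 2) ^ (i + 1) = (1 / 2) ^ i / 2 := by rw [pow_succ]; ring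
  by_cases h2 : a ≤ (1 / 2) ^ i
  · by_cases h3 : a ≤ (1 / 2) ^ (i + 1)
    · rw [if_pos h2, if_pos h3, sub_self] at h
      exact absurd rfl h
    · refine ⟨(not_le.1 h3).le, ?_⟩
      rw [h1]
      linarith
  · have h3 : ¬ a ≤ (1 / 2) ^ (i + 1) := by
      intro h3
      apply h2
      have : (0:ℝ) < (1 / 2) ^ i := by positivity
      rw [h1] at h3
      linarith
    rw [if_neg h2, if_neg h3, sub_self] at h
    exact absurd rfl h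

/-- The number of scales. -/
theorem scales (T : ℝ) (hT : 1 ≤ T) : ∃ J : ℕ, T ^ (-(1 / 2) : ℝ) ≤ (1 / 2) ^ J ∧
    (1 / 2 : ℝ) ^ J ≤ 2 * T ^ (-(1 / 2) : ℝ) ∧ (J : ℝ) ≤ 1 + Real.log T := by
  have hT0 : 0 < T := by linarith
  have hx : 1 ≤ √T := by rw [Real.one_le_sqrt]; exact hT
  obtain ⟨J, h1, h2⟩ := exists_nat_pow_near hx (by norm_num : (1:ℝ) < 2)
  have hs : T ^ (-(1 / 2) : ℝ) = (√T)⁻¹ := by
    rw [Real.rpow_neg hT0.le, Real.sqrt_eq_rpow]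
  have hs0 : 0 < √T := by linarith
  refine ⟨J, ?_, ?_, ?_⟩
  · rw [hs, one_div, inv_pow]
    exact inv_anti₀ (by positivity) h1
  · rw [hs, one_div, inv_pow]
    rw [pow_succ] at h2
    have : (2:ℝ) * (√T)⁻¹ = (√T / 2)⁻¹ := by rw [inv_div]; ring
    rw [this]
    exact inv_anti₀ (by positivity) (by linarith)
  · have h3 : (J : ℝ) * Real.log 2 ≤ Real.log √T := by
      rw [← Real.log_pow]
      exact Real.log_le_log (by positivity) h1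
    rw [Real.log_sqrt hT0.le] at h3
    have h4 := Real.log_two_gt_d9
    have h5 := Real.log_nonneg hT
    have h6 : (0:ℝ) ≤ J := Nat.cast_nonneg J
    nlinarith

/-- All product densities with support in the first quadrant. -/
theorem L4_pos (c : ℝ) (hc : 0 < c) (h : L4P c) : ∃ C : ℝ, 0 ≤ C ∧ ∃ k : ℕ, ∀ T : ℝ, 1 ≤ T →
    ∀ G₁ G₂ : ℝ → ℂ, Measurable G₁ → Measurable G₂ → (∀ a, ‖G₁ a‖ ≤ 1) → (∀ b, ‖G₂ b‖ ≤ 1) →
    (∀ a, G₁ a ≠ 0 → 0 ≤ a) → (∀ b, G₂ b ≠ 0 → 0 ≤ b) →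
    S4 c G₁ G₂ T ≤ ENNReal.ofReal (C * (1 + Real.log T) ^ k / T) := by
  obtain ⟨C1, hC1, k, H⟩ := h
  obtain ⟨C2, hC2, HS⟩ := strip_L4 c hc
  refine ⟨27 * (16 * C2) + 27 * C1, by positivity, k + 8, ?_⟩
  intro T hT G₁ G₂ h1 h2 b1 b2 s1 s2
  have hT0 : 0 < T := by linarith
  have hlog := Real.log_nonneg hT
  set L : ℝ := 1 + Real.log T with hL
  have hL1 : 1 ≤ L := by rw [hL]; linarith
  obtain ⟨J, hJ1, hJ2, hJ3⟩ := scales T hT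
  rw [← hL] at hJ3
  set δ : ℝ := (1 / 2 : ℝ) ^ J with hδ
  have hδ0 : 0 < δ := by positivity
  have hδ3 : δ ^ 3 ≤ 8 / T := by
    have e1 : T ^ (-(1 / 2) : ℝ) = (√T)⁻¹ := by
      rw [Real.rpow_neg hT0.le, Real.sqrt_eq_rpow]
    rw [e1] at hJ2
    have e2 : 1 ≤ √T := by rw [Real.one_le_sqrt]; exact hT
    have e3 : (√T)⁻¹ ≤ 1 := inv_le_one_of_one_le₀ e2
    have e4 : ((√T)⁻¹) ^ 2 = T⁻¹ := by rw [inv_pow, Real.sq_sqrt hT0.le]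
    have e5 : 0 ≤ (√T)⁻¹ := by positivity
    calc δ ^ 3 ≤ (2 * (√T)⁻¹) ^ 3 := pow_le_pow_left₀ hδ0.le hJ2 3
      _ = 8 * (((√T)⁻¹) ^ 2 * (√T)⁻¹) := by ring
      _ ≤ 8 * (((√T)⁻¹) ^ 2 * 1) := by gcongr
      _ = 8 / T := by rw [e4]; ring
  -- the cut-off functions
  set r₁ := ct J G₁ with hr₁
  set r₂ := ct J G₂ with hr₂
  set q₁ : ℝ → ℂ := fun a => ct 0 G₁ a - ct J G₁ a with hq₁
  set q₂ : ℝ → ℂ := fun b => ct 0 G₂ b - ct J G₂ b with hq₂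
  have mq₁ : Measurable q₁ := (ct_meas 0 G₁ h1).sub (ct_meas J G₁ h1)
  have mq₂ : Measurable q₂ := (ct_meas 0 G₂ h2).sub (ct_meas J G₂ h2)
  have nq₁ : ∀ a, ‖q₁ a‖ ≤ 1 := cd_norm 0 J (Nat.zero_le _) G₁ b1
  have nq₂ : ∀ a, ‖q₂ a‖ ≤ 1 := cd_norm 0 J (Nat.zero_le _) G₂ b2
  have supr : ∀ G : ℝ → ℂ, (∀ a, G a ≠ 0 → 0 ≤ a) → ∀ a, ct J G a ≠ 0 → |a| ≤ δ := by
    intro G hG a ha
    unfold ct at ha
    split_ifs at ha with h3
    · rw [abs_of_nonneg (hG a ha)]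
      exact h3
    · exact absurd rfl ha
  have hone : ∀ (G : ℝ → ℂ) a, |a| ≤ 1 → G a = ct 0 G a := by
    intro G a ha
    unfold ct
    rw [if_pos]
    rw [pow_zero]
    exact (le_abs_self a).trans ha
  have key : S4 c G₁ G₂ T ≤ 27 * (S4 c r₁ G₂ T + (S4 c q₁ r₂ T + S4 c q₁ q₂ T)) := by
    have := S4_sum c hc (Finset.univ : Finset (Fin 3)) ![r₁, q₁, q₁] ![G₂, r₂, q₂] G₁ G₂
      (by
        intro i
        fin_cases i
        · exact ct_meas J G₁ h1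
        · exact mq₁
        · exact mq₁) (by
        intro i
        fin_cases i
        · exact h2
        · exact ct_meas J G₂ h2
        · exact mq₂) (by
        intro i
        fin_cases i
        · exact ct_norm J G₁ b1
        · exact nq₁
        · exact nq₁) (by
        intro i
        fin_cases i
        · exact b2
        · exact ct_norm J G₂ b2
        · exact nq₂) (by
        intro x hx
        obtain ⟨-, -, a1, a2⟩ := wf_ne c hc _ _ hx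
        simp only [Fin.sum_univ_three, Matrix.cons_val_zero, Matrix.cons_val_one,
          Matrix.cons_val_two, Matrix.head_cons, Matrix.tail_cons]
        simp only [hq₁, hq₂, hr₁, hr₂]
        rw [hone G₁ _ a1]
        have e2 := hone G₂ _ a2
        rw [← e2]
        ring) T
    refine this.trans (le_of_eq ?_)
    simp only [Fin.sum_univ_three, Finset.card_univ, Fintype.card_fin, Matrix.cons_val_zero,
      Matrix.cons_val_one, Matrix.cons_val]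
    norm_num
    ring
  have k1 : S4 c r₁ G₂ T ≤ ENNReal.ofReal (8 * C2 * L ^ (k + 8) / T) := by
    refine (HS T hT δ hδ0 _ _ (ct_meas J G₁ h1) h2 (ct_norm J G₁ b1) b2 (supr G₁ s1)).trans ?_
    apply ENNReal.ofReal_le_ofReal
    rw [← hL]
    have e1 : L ≤ L ^ (k + 8) := le_self_pow₀ hL1 (by omega)
    calc C2 * L * δ ^ 3 ≤ C2 * L ^ (k + 8) * (8 / T) := by gcongr
      _ = 8 * C2 * L ^ (k + 8) / T := by ring
  have k2 : S4 c q₁ r₂ T ≤ ENNReal.ofReal (8 * C2 * L ^ (k + 8) / T) := by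
    rw [S4_swap c r₂ q₁ T]
    refine (HS T hT δ hδ0 _ _ (ct_meas J G₂ h2) mq₁ (ct_norm J G₂ b2) nq₁ (supr G₂ s2)).trans ?_
    apply ENNReal.ofReal_le_ofReal
    rw [← hL]
    have e1 : L ≤ L ^ (k + 8) := le_self_pow₀ hL1 (by omega)
    calc C2 * L * δ ^ 3 ≤ C2 * L ^ (k + 8) * (8 / T) := by gcongr
      _ = 8 * C2 * L ^ (k + 8) / T := by ring
  have k3 : S4 c q₁ q₂ T ≤ ENNReal.ofReal (C1 * L ^ (k + 8) / T) := by
    have e0 := S4_sum c hc (Finset.range J ×ˢ Finset.range J)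
      (fun (i : ℕ × ℕ) a => ct i.1 G₁ a - ct (i.1 + 1) G₁ a)
      (fun (i : ℕ × ℕ) b => ct i.2 G₂ b - ct (i.2 + 1) G₂ b) q₁ q₂
      (fun i => (ct_meas _ G₁ h1).sub (ct_meas _ G₁ h1))
      (fun i => (ct_meas _ G₂ h2).sub (ct_meas _ G₂ h2))
      (fun i => cd_norm _ _ (Nat.le_succ _) G₁ b1) (fun i => cd_norm _ _ (Nat.le_succ _) G₂ b2)
      (by
        intro x _
        have g1 : q₁ x.1 = ∑ i ∈ Finset.range J, (ct i G₁ x.1 - ct (i + 1) G₁ x.1) :=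
          (Finset.sum_range_sub' (fun i => ct i G₁ x.1) J).symm
        have g2 : q₂ x.2 = ∑ i ∈ Finset.range J, (ct i G₂ x.2 - ct (i + 1) G₂ x.2) :=
          (Finset.sum_range_sub' (fun i => ct i G₂ x.2) J).symm
        rw [Finset.sum_product, g1, g2, Finset.sum_mul_sum]) T
    refine e0.trans ?_
    have e1 : ∀ i ∈ Finset.range J ×ˢ Finset.range J,
        S4 c (fun a => ct i.1 G₁ a - ct (i.1 + 1) G₁ a)
          (fun b => ct i.2 G₂ b - ct (i.2 + 1) G₂ b) T ≤ ENNReal.ofReal (C1 * L ^ k / T) := by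
      intro i hi
      obtain ⟨hi1, hi2⟩ := Finset.mem_product.1 hi
      rw [Finset.mem_range] at hi1 hi2
      have f1 : ∀ j : ℕ, j < J → T ^ (-(1 / 2) : ℝ) ≤ (1 / 2 : ℝ) ^ (j + 1) := fun j hj =>
        hJ1.trans (pow_le_pow_of_le_one (by norm_num) (by norm_num) hj)
      have f2 : ∀ j : ℕ, (1 / 2 : ℝ) ^ j ≤ 1 := fun j =>
        pow_le_one₀ (by norm_num) (by norm_num)
      exact H T hT _ _ (f1 _ hi1) (f2 _) (f1 _ hi2) (f2 _) _ _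
        ((ct_meas _ G₁ h1).sub (ct_meas _ G₁ h1)) ((ct_meas _ G₂ h2).sub (ct_meas _ G₂ h2))
        (cd_norm _ _ (Nat.le_succ _) G₁ b1) (cd_norm _ _ (Nat.le_succ _) G₂ b2)
        (cd_supp _ G₁) (cd_supp _ G₂)
    have e2 := Finset.sum_le_sum e1
    rw [Finset.sum_const, nsmul_eq_mul] at e2
    have e3 : (Finset.range J ×ˢ Finset.range J).card = J * J := by
      rw [Finset.card_product, Finset.card_range]
    rw [e3] at e2 ⊢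
    refine (mul_le_mul_right e2 _).trans ?_
    have e4 : ((J * J : ℕ) : ℝ≥0∞) = ENNReal.ofReal ((J:ℝ) * J) := by
      rw [← Nat.cast_mul, ENNReal.ofReal_natCast]
    rw [e4, ← ENNReal.ofReal_pow (by positivity), ← ENNReal.ofReal_mul (by positivity),
      ← ENNReal.ofReal_mul (by positivity)]
    apply ENNReal.ofReal_le_ofReal
    have e5 : (0:ℝ) ≤ J := Nat.cast_nonneg J
    calc ((J:ℝ) * J) ^ 3 * ((J:ℝ) * J * (C1 * L ^ k / T)) = (J:ℝ) ^ 8 * (C1 * L ^ k / T) := by ring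
      _ ≤ L ^ 8 * (C1 * L ^ k / T) := by gcongr
      _ = C1 * L ^ (k + 8) / T := by rw [pow_add]; ring
  refine key.trans ?_
  refine (mul_le_mul_right (add_le_add k1 (add_le_add k2 k3)) _).trans ?_
  have h27 : (27 : ℝ≥0∞) = ENNReal.ofReal 27 := by simp
  rw [h27, ← ENNReal.ofReal_add (by positivity) (by positivity),
    ← ENNReal.ofReal_add (by positivity) (by positivity), ← ENNReal.ofReal_mul (by positivity)]
  apply ENNReal.ofReal_le_ofReal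
  apply le_of_eq
  ring

end Pool.Agent.FN
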