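import Pool.Agent.FN.S3

/-!
FN, soft part: signs, negative times, and the theorem for all product densities on the disc.
-/

namespace Pool.Agent.FN

open MeasureTheory Set Metric Pool.Agent.MP_6cbfb8_an Pool.Agent.MST Pool.Agent.N1
open scoped ENNReal Real

/-- Both signs of the coordinates. -/
theorem L4_sg (c : ℝ) (hc : 0 < c) (h : L4P c) : ∃ C : ℝ, 0 ≤ C ∧ ∃ k : ℕ, ∀ T : ℝ, 1 ≤ T →
    ∀ G₁ G₂ : ℝ → ℂ, Measurable G₁ → Measurable G₂ → (∀ a, ‖G₁ a‖ ≤ 1) → (∀ b, ‖G₂ b‖ ≤ 1) →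
    S4 c G₁ G₂ T ≤ ENNReal.ofReal (C * (1 + Real.log T) ^ k / T) := by
  obtain ⟨C, hC, k, H'⟩ := L4_pos c hc h
  refine ⟨256 * C, by positivity, k, ?_⟩
  intro T hT G₁ G₂ h1 h2 b1 b2
  set P : (ℝ → ℂ) → ℝ → ℂ := fun G a => if 0 ≤ a then G a else 0 with hP
  set M : (ℝ → ℂ) → ℝ → ℂ := fun G a => if 0 ≤ a then 0 else G a with hM
  have hsum : ∀ (G : ℝ → ℂ) a, G a = P G a + M G a := by
    intro G a
    simp only [hP, hM]
    split_ifs <;> simp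
  have mP : ∀ G : ℝ → ℂ, Measurable G → Measurable (P G) := by
    intro G hG
    exact Measurable.ite (measurableSet_Ici : MeasurableSet (Ici (0:ℝ))) hG measurable_const
  have mM : ∀ G : ℝ → ℂ, Measurable G → Measurable (M G) := by
    intro G hG
    exact Measurable.ite (measurableSet_Ici : MeasurableSet (Ici (0:ℝ))) measurable_const hG
  have nP : ∀ G : ℝ → ℂ, (∀ a, ‖G a‖ ≤ 1) → ∀ a, ‖P G a‖ ≤ 1 := by
    intro G hG a
    simp only [hP]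
    split_ifs
    · exact hG a
    · simp
  have nM : ∀ G : ℝ → ℂ, (∀ a, ‖G a‖ ≤ 1) → ∀ a, ‖M G a‖ ≤ 1 := by
    intro G hG a
    simp only [hM]
    split_ifs
    · simp
    · exact hG a
  have sP : ∀ G : ℝ → ℂ, ∀ a, P G a ≠ 0 → 0 ≤ a := by
    intro G a ha
    simp only [hP] at ha
    split_ifs at ha with h3
    · exact h3
    · exact absurd rfl ha
  have sM : ∀ G : ℝ → ℂ, ∀ a, M G (-a) ≠ 0 → 0 ≤ a := by
    intro G a ha
    simp only [hM] at ha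
    split_ifs at ha with h3
    · exact absurd rfl ha
    · linarith
  have mneg : ∀ G : ℝ → ℂ, Measurable G → Measurable (fun a => G (-a)) := by
    intro G hG
    exact hG.comp measurable_neg
  set R := ENNReal.ofReal (C * (1 + Real.log T) ^ k / T) with hR
  have e1 : S4 c (P G₁) (P G₂) T ≤ R :=
    H' T hT _ _ (mP _ h1) (mP _ h2) (nP _ b1) (nP _ b2) (sP _) (sP _)
  have e2 : S4 c (M G₁) (P G₂) T ≤ R := by
    rw [← S4_refl1]
    exact H' T hT _ _ (mneg _ (mM _ h1)) (mP _ h2) (fun a => nM _ b1 _) (nP _ b2) (sM _) (sP _)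
  have e3 : S4 c (P G₁) (M G₂) T ≤ R := by
    rw [← S4_refl2]
    exact H' T hT _ _ (mP _ h1) (mneg _ (mM _ h2)) (nP _ b1) (fun a => nM _ b2 _) (sP _) (sM _)
  have e4 : S4 c (M G₁) (M G₂) T ≤ R := by
    rw [← S4_refl2, ← S4_refl1]
    exact H' T hT _ _ (mneg _ (mM _ h1)) (mneg _ (mM _ h2)) (fun a => nM _ b1 _)
      (fun a => nM _ b2 _) (sM _) (sM _)
  have f1 : S4 c G₁ (P G₂) T ≤ 8 * (S4 c (P G₁) (P G₂) T + S4 c (M G₁) (P G₂) T) :=
    S4_add c hc _ _ _ _ _ _ (mP _ h1) (mP _ h2) (mM _ h1) (mP _ h2) (nP _ b1) (nP _ b2) (nM _ b1)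
      (nP _ b2) (fun x => by rw [hsum G₁ x.1]; ring) T
  have f2 : S4 c G₁ (M G₂) T ≤ 8 * (S4 c (P G₁) (M G₂) T + S4 c (M G₁) (M G₂) T) :=
    S4_add c hc _ _ _ _ _ _ (mP _ h1) (mM _ h2) (mM _ h1) (mM _ h2) (nP _ b1) (nM _ b2) (nM _ b1)
      (nM _ b2) (fun x => by rw [hsum G₁ x.1]; ring) T
  have f3 : S4 c G₁ G₂ T ≤ 8 * (S4 c G₁ (P G₂) T + S4 c G₁ (M G₂) T) :=
    S4_add c hc _ _ _ _ _ _ h1 (mP _ h2) h1 (mM _ h2) b1 (nP _ b2) b1
      (nM _ b2) (fun x => by rw [hsum G₂ x.2]; ring) T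
  calc S4 c G₁ G₂ T ≤ 8 * (8 * (R + R) + 8 * (R + R)) := by
        refine f3.trans ?_
        gcongr
        · exact f1.trans (by gcongr)
        · exact f2.trans (by gcongr)
    _ = ENNReal.ofReal (256 * C * (1 + Real.log T) ^ k / T) := by
        have h5 : (256 : ℝ≥0∞) = ENNReal.ofReal 256 := by norm_num
        have h6 : 8 * (8 * (R + R) + 8 * (R + R)) = 256 * R := by ring
        rw [h6, h5, hR, ← ENNReal.ofReal_mul (by norm_num)]
        congr 1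
        ring

/-- The class of product densities. -/
def prods (G : ℝ → ℝ → ℂ) : Prop := ∃ G₁ G₂ : ℝ → ℂ, Measurable G₁ ∧ Measurable G₂ ∧
  (∀ a, ‖G₁ a‖ ≤ 1) ∧ (∀ b, ‖G₂ b‖ ≤ 1) ∧ ∀ a b, G a b = G₁ a * G₂ b

/-- The dyadic `L⁴` estimate for all product densities and both signs of the time. -/
theorem L4C_prods (c : ℝ) (hc : 0 < c) (h : L4P c) : L4C c prods := by
  obtain ⟨C, hC, k, H⟩ := L4_sg c hc h
  refine ⟨2 * C, by positivity, k, ?_⟩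
  rintro T hT G - - ⟨G₁, G₂, h1, h2, b1, b2, hG⟩
  have hfun : (fun w : E 2 => G (w 0) (w 1)) = pw G₁ G₂ := by
    funext w
    unfold pw
    exact hG _ _
  rw [hfun]
  have hsub : {t : ℝ | T ≤ |t| ∧ |t| ≤ 2 * T} ⊆ Icc T (2 * T) ∪ Icc (-(2 * T)) (-T) := by
    intro t ht
    obtain ⟨ht1, ht2⟩ := ht
    rcases le_total 0 t with h0 | h0
    · rw [abs_of_nonneg h0] at ht1 ht2
      exact Or.inl ⟨ht1, ht2⟩
    · rw [abs_of_nonpos h0] at ht1 ht2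
      exact Or.inr ⟨by linarith, by linarith⟩
  have hin : ∀ t : ℝ, ∫⁻ x : E 2, ‖op2 (hft_a c) idM t (pw G₁ G₂) x‖ₑ ^ (4:ℝ) =
      ∫⁻ ξ : ℝ × ℝ, ‖Eo c G₁ G₂ t ξ‖ₑ ^ 4 := by
    intro t
    rw [← lint_pe]
    refine lintegral_congr fun x => ?_
    rw [op2_pw c hc]
    exact_mod_cast ENNReal.rpow_natCast _ 4
  have hcm : ∀ G : ℝ → ℂ, Measurable G → Measurable fun a => (starRingEnd ℂ) (G a) := by
    intro G hG
    exact Complex.continuous_conj.measurable.comp hG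
  calc ∫⁻ t in {t : ℝ | T ≤ |t| ∧ |t| ≤ 2 * T}, ∫⁻ x : E 2,
        ‖op2 (hft_a c) idM t (pw G₁ G₂) x‖ₑ ^ (4:ℝ)
      = ∫⁻ t in {t : ℝ | T ≤ |t| ∧ |t| ≤ 2 * T}, ∫⁻ ξ : ℝ × ℝ, ‖Eo c G₁ G₂ t ξ‖ₑ ^ 4 :=
        lintegral_congr fun t => hin t
    _ ≤ ∫⁻ t in Icc T (2 * T) ∪ Icc (-(2 * T)) (-T), ∫⁻ ξ : ℝ × ℝ, ‖Eo c G₁ G₂ t ξ‖ₑ ^ 4 :=
        lintegral_mono_set hsub
    _ ≤ S4 c G₁ G₂ T + S4 c (fun a => (starRingEnd ℂ) (G₁ a)) (fun b => (starRingEnd ℂ) (G₂ b)) T := by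
        refine (lintegral_union_le _ _ _).trans ?_
        rw [S4_neg]
        exact le_rfl
    _ ≤ ENNReal.ofReal (C * (1 + Real.log T) ^ k / T) +
          ENNReal.ofReal (C * (1 + Real.log T) ^ k / T) := by
        refine add_le_add (H T hT G₁ G₂ h1 h2 b1 b2) (H T hT _ _ (hcm _ h1) (hcm _ h2) ?_ ?_)
        · intro a
          rw [RCLike.norm_conj]
          exact b1 a
        · intro a
          rw [RCLike.norm_conj]
          exact b2 a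
    _ = ENNReal.ofReal (2 * C * (1 + Real.log T) ^ k / T) := by
        have hlog := Real.log_nonneg hT
        rw [← ENNReal.ofReal_add (by positivity) (by positivity)]
        congr 1
        ring

/-- Mixtures of all product densities on the disc, in all dimensions. -/
theorem prods_main (l : ℕ) (hl : 1 ≤ l) (N : ℕ) (c p : ℝ) (hc : 0 < c) (h : L4P c)
    (hp : 2 * ((l : ℝ) + 2) / (l + 1) < p) :
    ∃ C : ℝ≥0∞, C ≠ ⊤ ∧ ∀ (W : Type) (_ : MeasurableSpace W) (ν : Measure W)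
      (_ : IsFiniteMeasure ν) (R : W → (E (2 + l) ≃ₗᵢ[ℝ] E (2 + l))) (η : W → E (2 + l))
      (G₁ G₂ : W → ℝ → ℂ) (v : W → Fin N → E (2 + l)) (e : W → Fin N → ℝ),
      (Measurable fun q : W × E (2 + l) => R q.1 q.2) → Measurable η →
      (Measurable fun q : W × ℝ => G₁ q.1 q.2) → (Measurable fun q : W × ℝ => G₂ q.1 q.2) →
      Measurable v → Measurable e → (∀ w z, ‖G₁ w z‖ ≤ 1) → (∀ w z, ‖G₂ w z‖ ≤ 1) →
      ∫⁻ ξ, ‖extn (mix ν R η fun w x =>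
        dsk c (fun a b => G₁ w a * G₂ w b) (fstE x) * ∏ i, hsn (e w i) (v w i) x) ξ‖ₑ ^ p ≤
          C * ν univ ^ p := by
  obtain ⟨C, hC, H⟩ := class_main l hl N c p hc prods (L4C_prods c hc h) hp
  refine ⟨C, hC, ?_⟩
  intro W _ ν _ R η G₁ G₂ v e hR hη h1 h2 hv he b1 b2
  refine H W inferInstance ν inferInstance R η (fun w a b => G₁ w a * G₂ w b) v e hR hη ?_ hv he
    (fun w a b => ?_) fun w => ⟨G₁ w, G₂ w, ?_, ?_, b1 w, b2 w, fun _ _ => rfl⟩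
  · exact (h1.comp (f := fun q : W × (ℝ × ℝ) => (q.1, q.2.1)) (by fun_prop)).mul
      (h2.comp (f := fun q : W × (ℝ × ℝ) => (q.1, q.2.2)) (by fun_prop))
  · rw [norm_mul]
    exact mul_le_one₀ (b1 w a) (norm_nonneg _) (b2 w b)
  · exact h1.comp (f := fun z : ℝ => (w, z)) (by fun_prop)
  · exact h2.comp (f := fun z : ℝ => (w, z)) (by fun_prop)

end Pool.Agent.FN
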