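import Pool.Agent.FN.S3
import Pool.Agent.N1.G1
import Pool.Agent.N1.C2

/-!
FN, soft part: change of the cut-off at the equator.
-/

namespace Pool.Agent.FN

open MeasureTheory Set Metric Pool.Agent.MP_6cbfb8_an Pool.Agent.MST Pool.Agent.N1
open scoped ENNReal Real ContDiff

/-- The quotient of the two cut-off functions. -/
noncomputable def Tc (c v : ℝ) : ℝ := th v * (sma c v * Sq c v)

theorem Tc_smooth (c : ℝ) (hc : 0 < c) : ContDiff ℝ ∞ (Tc c) := by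
  have h1 : ContDiff ℝ ∞ (sma c) := contDiff_infty.2 fun n => (hft_cut hc).1 n
  exact th_contDiff.mul (h1.mul (Sq_smooth c hc))

theorem Tc_supp (c : ℝ) : HasCompactSupport (Tc c) := by
  refine HasCompactSupport.intro (isCompact_Icc (a := (-2:ℝ)) (b := 2)) fun v hv => ?_
  unfold Tc
  rw [th_zero v, zero_mul]
  by_contra h
  exact hv (abs_le.1 (not_le.1 h).le)

theorem Sq_eq (c v : ℝ) (hc : 0 < c) (hv : c ^ 2 / 4 ≤ v) : Sq c v = √v := by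
  unfold Sq
  rw [Real.smoothTransition.one_of_one_le, mul_one]
  rw [le_div_iff₀ (by positivity)]
  nlinarith [sq_nonneg c]

theorem wf_change (c c1 : ℝ) (hc : 0 < c) (hc1 : 0 < c1) (h : c1 ≤ c / 2) (a b : ℝ) :
    wf c a b = Tc c (1 - a ^ 2 - b ^ 2) * wf c1 a b := by
  unfold wf
  set v := 1 - a ^ 2 - b ^ 2 with hv
  by_cases h1 : v ≤ c ^ 2 / 4
  · unfold Tc
    rw [f1_sma_zero c hc v h1]
    ring
  · push Not at h1
    have hv0 : 0 < v := lt_of_le_of_lt (by positivity) h1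
    have hv1 : v ≤ 1 := by rw [hv]; nlinarith [sq_nonneg a, sq_nonneg b]
    have hs0 : 0 < √v := Real.sqrt_pos.2 hv0
    have hsc : c / 2 ≤ √v := by
      apply Real.le_sqrt_of_sq_le
      nlinarith
    have e1 : sma c1 v = 1 / √v := by
      unfold sma smb
      rw [Real.smoothTransition.one_of_one_le]
      rw [le_div_iff₀ hc1]
      linarith
    unfold Tc
    rw [th_one v (abs_le.2 ⟨by linarith, hv1⟩), Sq_eq c v hc h1.le, e1]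
    field_simp

theorem qf_change (c c1 : ℝ) (hc : 0 < c) (hc1 : 0 < c1) (h : c1 ≤ c / 2) (a b : ℝ)
    (hw : wf c a b ≠ 0) : qf c a b = qf c1 a b := by
  have h1 : ¬ (1 - a ^ 2 - b ^ 2 ≤ c ^ 2 / 4) := fun h2 => hw (f1_sma_zero c hc _ h2)
  push Not at h1
  unfold qf
  rw [Sq_eq c _ hc h1.le, Sq_eq c1 _ hc1]
  have : c1 ^ 2 ≤ c ^ 2 := pow_le_pow_left₀ hc1.le (by linarith) 2
  linarith

/-- Jensen's inequality for the fourth power. -/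
theorem jensen4 (w F : ℝ → ℝ≥0∞) (hw : Measurable w) (hF : Measurable F) :
    (∫⁻ η, w η * F η) ^ 4 ≤ (∫⁻ η, w η) ^ 3 * ∫⁻ η, w η * F η ^ 4 := by
  have hpq : (4 / 3 : ℝ).HolderConjugate 4 := by
    rw [Real.holderConjugate_iff]
    norm_num
  have h := ENNReal.lintegral_mul_le_Lp_mul_Lq volume hpq
    (f := fun η => w η ^ (3 / 4 : ℝ)) (g := fun η => w η ^ (1 / 4 : ℝ) * F η)
    (hw.pow_const _).aemeasurable ((hw.pow_const _).mul hF).aemeasurable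
  have e1 : ∀ η, ((fun η => w η ^ (3 / 4 : ℝ)) * fun η => w η ^ (1 / 4 : ℝ) * F η) η =
      w η * F η := by
    intro η
    simp only [Pi.mul_apply]
    rw [← mul_assoc, ← ENNReal.rpow_add_of_nonneg _ _ (by norm_num) (by norm_num)]
    norm_num
  have e2 : ∀ η, (w η ^ (3 / 4 : ℝ)) ^ (4 / 3 : ℝ) = w η := by
    intro η
    rw [← ENNReal.rpow_mul]
    norm_num
  have e3 : ∀ η, (w η ^ (1 / 4 : ℝ) * F η) ^ (4 : ℝ) = w η * F η ^ 4 := by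
    intro η
    rw [ENNReal.mul_rpow_of_nonneg _ _ (by norm_num), ← ENNReal.rpow_mul]
    have : (4:ℝ) = ((4:ℕ):ℝ) := by norm_num
    rw [this, ENNReal.rpow_natCast]
    norm_num
  rw [lintegral_congr e1, lintegral_congr e2, lintegral_congr e3] at h
  have h2 := ENNReal.rpow_le_rpow h (z := 4) (by norm_num)
  rw [ENNReal.mul_rpow_of_nonneg _ _ (by norm_num), ← ENNReal.rpow_mul, ← ENNReal.rpow_mul] at h2
  have e4 : (1 / (4 / 3) * 4 : ℝ) = ((3:ℕ):ℝ) := by norm_num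
  have e5 : (1 / 4 * 4 : ℝ) = 1 := by norm_num
  have e6 : (4:ℝ) = ((4:ℕ):ℝ) := by norm_num
  rw [e4, e5, ENNReal.rpow_one, ENNReal.rpow_natCast, e6, ENNReal.rpow_natCast] at h2
  exact h2

theorem FT1_meas (B : ℝ) (m : ℝ → ℂ) (h : FT1 B m) : ∃ w : ℝ → ℂ, Measurable w ∧ Integrable w ∧
    (∫ η, ‖w η‖) ≤ B ∧ ∀ x, m x = ∫ η, w η * ex (η * x) := by
  obtain ⟨w, h1, h2, h3⟩ := h
  refine ⟨h1.aestronglyMeasurable.mk w, h1.aestronglyMeasurable.stronglyMeasurable_mk.measurable,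
    h1.congr h1.aestronglyMeasurable.ae_eq_mk, ?_, fun x => ?_⟩
  · refine le_trans (le_of_eq ?_) h2
    refine integral_congr_ae ?_
    filter_upwards [h1.aestronglyMeasurable.ae_eq_mk] with η hη
    rw [← hη]
  · rw [h3 x]
    refine integral_congr_ae ?_
    filter_upwards [h1.aestronglyMeasurable.ae_eq_mk] with η hη
    rw [← hη]

/-- The density multiplied by a chirp. -/
noncomputable def mo (η : ℝ) (G : ℝ → ℂ) (a : ℝ) : ℂ := G a * ex (-(η * a ^ 2))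

theorem mo_meas (η : ℝ) (G : ℝ → ℂ) (h : Measurable G) : Measurable (mo η G) := by
  unfold mo
  exact h.mul (measurable_ex.comp (by fun_prop))

theorem mo_norm (η : ℝ) (G : ℝ → ℂ) (h : ∀ a, ‖G a‖ ≤ 1) (a : ℝ) : ‖mo η G a‖ ≤ 1 := by
  unfold mo
  rw [norm_mul, hns_norm_ex, mul_one]
  exact h a

theorem mo_supp (η : ℝ) (G : ℝ → ℂ) (c : ℝ) (h : ∀ a, G a ≠ 0 → c ≤ a) (a : ℝ)
    (ha : mo η G a ≠ 0) : c ≤ a := by
  apply h a
  intro h0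
  apply ha
  unfold mo
  rw [h0, zero_mul]

theorem Eo_mo_meas (c : ℝ) (hc : 0 < c) (G₁ G₂ : ℝ → ℂ) (h1 : Measurable G₁)
    (h2 : Measurable G₂) : Measurable fun q : ℝ × ℝ × (ℝ × ℝ) =>
      Eo c (mo q.1 G₁) (mo q.1 G₂) q.2.1 q.2.2 := by
  unfold Eo mo
  have m1 : Measurable fun q : (ℝ × ℝ × (ℝ × ℝ)) × (ℝ × ℝ) =>
      (G₁ q.2.1 * ex (-(q.1.1 * q.2.1 ^ 2))) * (G₂ q.2.2 * ex (-(q.1.1 * q.2.2 ^ 2))) *
        ((wf c q.2.1 q.2.2 : ℝ) : ℂ) * ex (q.1.2.1 * qf c q.2.1 q.2.2) *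
        ex (q.2.1 * q.1.2.2.1 + q.2.2 * q.1.2.2.2) := by
    have n1 : Measurable fun q : (ℝ × ℝ × (ℝ × ℝ)) × (ℝ × ℝ) => G₁ q.2.1 :=
      h1.comp (by fun_prop)
    have n2 : Measurable fun q : (ℝ × ℝ × (ℝ × ℝ)) × (ℝ × ℝ) => G₂ q.2.2 :=
      h2.comp (by fun_prop)
    have n3 : Measurable fun q : (ℝ × ℝ × (ℝ × ℝ)) × (ℝ × ℝ) => wf c q.2.1 q.2.2 :=
      (wf_cont c hc).measurable.comp
        (f := fun q : (ℝ × ℝ × (ℝ × ℝ)) × (ℝ × ℝ) => (q.2.1, q.2.2)) (by fun_prop)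
    have n4 : Measurable fun q : (ℝ × ℝ × (ℝ × ℝ)) × (ℝ × ℝ) => qf c q.2.1 q.2.2 :=
      (qf_cont c).measurable.comp
        (f := fun q : (ℝ × ℝ × (ℝ × ℝ)) × (ℝ × ℝ) => (q.2.1, q.2.2)) (by fun_prop)
    have n5 : Measurable fun q : (ℝ × ℝ × (ℝ × ℝ)) × (ℝ × ℝ) => ex (-(q.1.1 * q.2.1 ^ 2)) :=
      measurable_ex.comp (by fun_prop)
    have n6 : Measurable fun q : (ℝ × ℝ × (ℝ × ℝ)) × (ℝ × ℝ) => ex (-(q.1.1 * q.2.2 ^ 2)) :=
      measurable_ex.comp (by fun_prop)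
    have n7 : Measurable fun q : (ℝ × ℝ × (ℝ × ℝ)) × (ℝ × ℝ) =>
        ex (q.1.2.1 * qf c q.2.1 q.2.2) :=
      measurable_ex.comp (Measurable.mul (by fun_prop) n4)
    have n8 : Measurable fun q : (ℝ × ℝ × (ℝ × ℝ)) × (ℝ × ℝ) =>
        ex (q.2.1 * q.1.2.2.1 + q.2.2 * q.1.2.2.2) := measurable_ex.comp (by fun_prop)
    exact ((((n1.mul n5).mul (n2.mul n6)).mul (Complex.measurable_ofReal.comp n3)).mul n7).mul n8
  exact (m1.stronglyMeasurable.integral_prod_right' (ν := (volume : Measure (ℝ × ℝ)))).measurable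

theorem Eo_change (c c1 : ℝ) (hc : 0 < c) (hc1 : 0 < c1) (h : c1 ≤ c / 2) (G₁ G₂ : ℝ → ℂ)
    (h1 : Measurable G₁) (h2 : Measurable G₂) (b1 : ∀ a, ‖G₁ a‖ ≤ 1) (b2 : ∀ b, ‖G₂ b‖ ≤ 1)
    (w : ℝ → ℂ) (hw : Integrable w) (hwT : ∀ x, ((Tc c x : ℝ) : ℂ) = ∫ η, w η * ex (η * x))
    (t : ℝ) (ξ : ℝ × ℝ) :
    Eo c G₁ G₂ t ξ = ∫ η, w η * (ex η * Eo c1 (mo η G₁) (mo η G₂) t ξ) := by
  set hx : ℝ × ℝ → ℝ := fun x => 1 - x.1 ^ 2 - x.2 ^ 2 with hhx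
  have hxm : Measurable hx := by rw [hhx]; fun_prop
  have hi := Ei_int c1 hc1 G₁ G₂ h1 h2 b1 b2 t ξ
  have e1 : Eo c G₁ G₂ t ξ = ∫ x, ∫ η, w η * (ex (η * hx x) * Ei c1 G₁ G₂ t ξ x) := by
    unfold Eo
    refine integral_congr_ae (Filter.Eventually.of_forall fun x => ?_)
    simp only
    have e2 : ∫ η, w η * (ex (η * hx x) * Ei c1 G₁ G₂ t ξ x) =
        ((Tc c (hx x) : ℝ) : ℂ) * Ei c1 G₁ G₂ t ξ x := by
      rw [hwT, ← integral_mul_const]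
      refine integral_congr_ae (Filter.Eventually.of_forall fun η => ?_)
      simp only
      ring
    rw [e2]
    unfold Ei
    by_cases hwf : wf c x.1 x.2 = 0
    · have e3 := wf_change c c1 hc hc1 h x.1 x.2
      rw [hwf] at e3 ⊢
      have e4 : ((Tc c (hx x) : ℝ) : ℂ) * ((wf c1 x.1 x.2 : ℝ) : ℂ) = 0 := by
        rw [← Complex.ofReal_mul, hhx]
        simp only
        rw [← e3]
        simp
      calc G₁ x.1 * G₂ x.2 * ((0 : ℝ) : ℂ) * ex (t * qf c x.1 x.2) *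
            ex (x.1 * ξ.1 + x.2 * ξ.2) = 0 := by simp
        _ = (((Tc c (hx x) : ℝ) : ℂ) * ((wf c1 x.1 x.2 : ℝ) : ℂ)) * (G₁ x.1 * G₂ x.2 *
            ex (t * qf c1 x.1 x.2) * ex (x.1 * ξ.1 + x.2 * ξ.2)) := by rw [e4, zero_mul]
        _ = _ := by ring
    · rw [qf_change c c1 hc hc1 h _ _ hwf, wf_change c c1 hc hc1 h x.1 x.2]
      push_cast
      ring
  have hint : Integrable (Function.uncurry fun (x : ℝ × ℝ) η =>
      w η * (ex (η * hx x) * Ei c1 G₁ G₂ t ξ x)) (volume.prod volume) := by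
    have i1 : Integrable (fun z : (ℝ × ℝ) × ℝ => Ei c1 G₁ G₂ t ξ z.1 * w z.2)
        (volume.prod volume) := hi.mul_prod hw
    have i2 : Measurable fun z : (ℝ × ℝ) × ℝ => ex (z.2 * hx z.1) :=
      measurable_ex.comp (measurable_snd.mul (hxm.comp measurable_fst))
    have i3 := i1.bdd_mul (c := 1) i2.aestronglyMeasurable
      (Filter.Eventually.of_forall fun z => (hns_norm_ex _).le)
    refine i3.congr (Filter.Eventually.of_forall fun z => ?_)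
    simp only [Function.uncurry]
    ring
  rw [e1, integral_integral_swap hint]
  refine integral_congr_ae (Filter.Eventually.of_forall fun η => ?_)
  simp only
  rw [integral_const_mul]
  congr 1
  unfold Eo
  rw [← integral_const_mul]
  refine integral_congr_ae (Filter.Eventually.of_forall fun x => ?_)
  simp only
  unfold Ei mo
  have e5 : ex (η * hx x) = ex η * ex (-(η * x.1 ^ 2)) * ex (-(η * x.2 ^ 2)) := by
    rw [← hlf_ex_add, ← hlf_ex_add]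
    congr 1
    rw [hhx]
    ring
  rw [e5]
  ring

/-- Change of the cut-off at the equator. -/
theorem change_cut (c c1 : ℝ) (hc : 0 < c) (hc1 : 0 < c1) (h : c1 ≤ c / 2) (h4 : L4H c1) :
    ∃ C : ℝ, 0 ≤ C ∧ ∀ T : ℝ, 1 ≤ T → ∀ G₁ G₂ : ℝ → ℂ,
    Measurable G₁ → Measurable G₂ → (∀ a, ‖G₁ a‖ ≤ 1) → (∀ b, ‖G₂ b‖ ≤ 1) →
    (∀ a, G₁ a ≠ 0 → c1 ≤ a) → (∀ b, G₂ b ≠ 0 → c1 ≤ b) →
    S4 c G₁ G₂ T ≤ ENNReal.ofReal (C * (1 + Real.log T) ^ 8 / T) := by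
  obtain ⟨C, hC, H⟩ := h4
  obtain ⟨B, hB, hFT⟩ := FT1_smooth (Tc c) (Tc_smooth c hc) (Tc_supp c)
  obtain ⟨w, hwm, hwi, hwB, hwT⟩ := FT1_meas B _ hFT
  refine ⟨B ^ 4 * C, by positivity, ?_⟩
  intro T hT G₁ G₂ h1 h2 b1 b2 s1 s2
  have hlog := Real.log_nonneg hT
  set R : ℝ≥0∞ := ENNReal.ofReal (C * (1 + Real.log T) ^ 8 / T) with hR
  set M : ℝ≥0∞ := ∫⁻ η, ‖w η‖ₑ with hM
  have hMB : M ≤ ENNReal.ofReal B := by
    have : M = ENNReal.ofReal (∫ η, ‖w η‖) := by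
      rw [hM, ofReal_integral_norm_eq_lintegral_enorm hwi]
    rw [this]
    exact ENNReal.ofReal_le_ofReal hwB
  have hEm := Eo_mo_meas c1 hc1 G₁ G₂ h1 h2
  have hM3 : M ^ 3 ≠ ⊤ := ENNReal.pow_ne_top (ne_top_of_le_ne_top ENNReal.ofReal_ne_top hMB)
  -- the pointwise inequality
  have hpt : ∀ t ξ, ‖Eo c G₁ G₂ t ξ‖ₑ ^ 4 ≤
      M ^ 3 * ∫⁻ η, ‖w η‖ₑ * ‖Eo c1 (mo η G₁) (mo η G₂) t ξ‖ₑ ^ 4 := by
    intro t ξ
    have m1 : Measurable fun η : ℝ => ‖Eo c1 (mo η G₁) (mo η G₂) t ξ‖ₑ :=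
      (hEm.comp (f := fun η : ℝ => (η, t, ξ)) (by fun_prop)).enorm
    refine le_trans ?_ (jensen4 (fun η => ‖w η‖ₑ)
      (fun η => ‖Eo c1 (mo η G₁) (mo η G₂) t ξ‖ₑ) hwm.enorm m1)
    gcongr
    rw [Eo_change c c1 hc hc1 h G₁ G₂ h1 h2 b1 b2 w hwi hwT]
    refine (enorm_integral_le_lintegral_enorm _).trans (le_of_eq ?_)
    refine lintegral_congr fun η => ?_
    rw [enorm_mul, enorm_mul]
    have : ‖ex η‖ₑ = 1 := by
      rw [← ofReal_norm, hns_norm_ex, ENNReal.ofReal_one]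
    rw [this, one_mul]
  -- measurability
  have mall : Measurable fun q : ℝ × ℝ × (ℝ × ℝ) =>
      ‖w q.1‖ₑ * ‖Eo c1 (mo q.1 G₁) (mo q.1 G₂) q.2.1 q.2.2‖ₑ ^ 4 :=
    (hwm.comp measurable_fst).enorm.mul (hEm.enorm.pow_const 4)
  unfold S4
  calc ∫⁻ t in Icc T (2 * T), ∫⁻ ξ : ℝ × ℝ, ‖Eo c G₁ G₂ t ξ‖ₑ ^ 4
      ≤ ∫⁻ t in Icc T (2 * T), ∫⁻ ξ : ℝ × ℝ,
          M ^ 3 * ∫⁻ η, ‖w η‖ₑ * ‖Eo c1 (mo η G₁) (mo η G₂) t ξ‖ₑ ^ 4 :=
        lintegral_mono fun t => lintegral_mono fun ξ => hpt t ξ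
    _ = M ^ 3 * ∫⁻ t in Icc T (2 * T), ∫⁻ ξ : ℝ × ℝ,
          ∫⁻ η, ‖w η‖ₑ * ‖Eo c1 (mo η G₁) (mo η G₂) t ξ‖ₑ ^ 4 := by
        rw [← lintegral_const_mul' _ _ hM3]
        refine lintegral_congr fun t => ?_
        rw [lintegral_const_mul' _ _ hM3]
    _ = M ^ 3 * ∫⁻ η, ∫⁻ t in Icc T (2 * T), ∫⁻ ξ : ℝ × ℝ,
          ‖w η‖ₑ * ‖Eo c1 (mo η G₁) (mo η G₂) t ξ‖ₑ ^ 4 := by
        congr 1
        have e1 : ∀ t : ℝ, ∫⁻ ξ : ℝ × ℝ, ∫⁻ η, ‖w η‖ₑ * ‖Eo c1 (mo η G₁) (mo η G₂) t ξ‖ₑ ^ 4 =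
            ∫⁻ η, ∫⁻ ξ : ℝ × ℝ, ‖w η‖ₑ * ‖Eo c1 (mo η G₁) (mo η G₂) t ξ‖ₑ ^ 4 := by
          intro t
          refine lintegral_lintegral_swap ?_
          exact (mall.comp (f := fun q : (ℝ × ℝ) × ℝ => (q.2, t, q.1)) (by fun_prop)).aemeasurable
        rw [lintegral_congr e1]
        refine lintegral_lintegral_swap ?_
        have e2 : Measurable fun q : (ℝ × ℝ) × (ℝ × ℝ) =>
            ‖w q.1.2‖ₑ * ‖Eo c1 (mo q.1.2 G₁) (mo q.1.2 G₂) q.1.1 q.2‖ₑ ^ 4 :=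
          mall.comp (f := fun q : (ℝ × ℝ) × (ℝ × ℝ) => (q.1.2, q.1.1, q.2)) (by fun_prop)
        exact e2.lintegral_prod_right'.aemeasurable
    _ = M ^ 3 * ∫⁻ η, ‖w η‖ₑ * S4 c1 (mo η G₁) (mo η G₂) T := by
        congr 1
        refine lintegral_congr fun η => ?_
        unfold S4
        rw [← lintegral_const_mul' _ _ enorm_ne_top]
        refine lintegral_congr fun t => ?_
        rw [lintegral_const_mul' _ _ enorm_ne_top]
    _ ≤ M ^ 3 * ∫⁻ η, ‖w η‖ₑ * R := by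
        gcongr with η
        exact H T hT _ _ (mo_meas η _ h1) (mo_meas η _ h2) (mo_norm η _ b1) (mo_norm η _ b2)
          (mo_supp η _ _ s1) (mo_supp η _ _ s2)
    _ = M ^ 4 * R := by
        rw [lintegral_mul_const _ hwm.enorm]
        ring
    _ ≤ ENNReal.ofReal B ^ 4 * R := by gcongr
    _ = ENNReal.ofReal (B ^ 4 * C * (1 + Real.log T) ^ 8 / T) := by
        rw [← ENNReal.ofReal_pow hB, hR, ← ENNReal.ofReal_mul (by positivity)]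
        congr 1
        ring

/-- The dyadic estimate from the landed case and from the pieces near the axes. -/
theorem L4P_of (c : ℝ) (hc : 0 < c) (hN : ∀ c1 : ℝ, 0 < c1 → L4H c1) (d0 : ℝ) (hd0 : 0 < d0)
    (h : ∃ C : ℝ, 0 ≤ C ∧ ∃ k : ℕ, ∀ T : ℝ, 1 ≤ T → ∀ m n : ℝ,
      T ^ (-(1 / 2) : ℝ) ≤ m → m ≤ 1 → T ^ (-(1 / 2) : ℝ) ≤ n → n ≤ 1 → m * n ≤ d0 →
      ∀ G₁ G₂ : ℝ → ℂ,
      Measurable G₁ → Measurable G₂ → (∀ a, ‖G₁ a‖ ≤ 1) → (∀ b, ‖G₂ b‖ ≤ 1) →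
      (∀ a, G₁ a ≠ 0 → m ≤ a ∧ a ≤ 2 * m) → (∀ b, G₂ b ≠ 0 → n ≤ b ∧ b ≤ 2 * n) →
      ∫⁻ t in Icc T (2 * T), ∫⁻ ξ : ℝ × ℝ, ‖Eo c G₁ G₂ t ξ‖ₑ ^ 4 ≤
        ENNReal.ofReal (C * (1 + Real.log T) ^ k / T)) : L4P c := by
  obtain ⟨C, hC, k, H⟩ := h
  set c1 : ℝ := min (c / 2) d0 with hc1d
  have hc1 : 0 < c1 := lt_min (by positivity) hd0
  obtain ⟨C', hC', H'⟩ := change_cut c c1 hc hc1 (min_le_left _ _) (hN c1 hc1)
  refine ⟨C + C', by positivity, k + 8, ?_⟩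
  intro T hT m n hm hm1 hn hn1 G₁ G₂ h1 h2 b1 b2 s1 s2
  have hlog := Real.log_nonneg hT
  have hL1 : 1 ≤ 1 + Real.log T := by linarith
  have hT0 : 0 < T := by linarith
  have hm0 : 0 < m := lt_of_lt_of_le (Real.rpow_pos_of_pos hT0 _) hm
  have hn0 : 0 < n := lt_of_lt_of_le (Real.rpow_pos_of_pos hT0 _) hn
  rcases le_or_gt (m * n) d0 with hd | hd
  · refine (H T hT m n hm hm1 hn hn1 hd G₁ G₂ h1 h2 b1 b2 s1 s2).trans ?_
    apply ENNReal.ofReal_le_ofReal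
    have e1 : (1 + Real.log T) ^ k ≤ (1 + Real.log T) ^ (k + 8) :=
      pow_le_pow_right₀ hL1 (by omega)
    gcongr
    linarith
  · have hmd : d0 ≤ m := by nlinarith
    have hnd : d0 ≤ n := by nlinarith
    have key := H' T hT G₁ G₂ h1 h2 b1 b2
      (fun a ha => (min_le_right _ _).trans (hmd.trans (s1 a ha).1))
      (fun b hb => (min_le_right _ _).trans (hnd.trans (s2 b hb).1))
    refine key.trans ?_
    apply ENNReal.ofReal_le_ofReal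
    have e1 : (1 + Real.log T) ^ 8 ≤ (1 + Real.log T) ^ (k + 8) :=
      pow_le_pow_right₀ hL1 (by omega)
    gcongr
    linarith

end Pool.Agent.FN
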